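import Mathlib

/-!
# A bound for nilpotent normal subgroups

Let `P` be a nilpotent normal subgroup of index at most `k` in the finite group `H`, and let `𝓘` be
a set of subgroups of `H` such that every member of `𝓘` misses at most `m` conjugacy classes of `H`
and every abelian normal subgroup meets some member of `𝓘` trivially. Then `|P|` is bounded in
terms of `k` and `m`.
-/

set_option autoImplicit false

open scoped commutatorElement

namespace Pool.Agent.K3h11.Zer

variable {H : Type} [Group H]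

/-- the elements of `H` which centralize `P` modulo `C` -/
def cen (P C : Subgroup H) (hC : C.Normal) : Subgroup H where
  carrier := {x | ∀ p ∈ P, x * p * x⁻¹ * p⁻¹ ∈ C}
  mul_mem' := by
    intro x y hx hy p hp
    have e : x * y * p * (x * y)⁻¹ * p⁻¹ =
        (x * (y * p * y⁻¹ * p⁻¹) * x⁻¹) * (x * p * x⁻¹ * p⁻¹) := by group
    rw [e]
    exact C.mul_mem (hC.conj_mem _ (hy p hp) x) (hx p hp)
  one_mem' := by
    intro p hp
    have e : (1 : H) * p * 1⁻¹ * p⁻¹ = 1 := by group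
    rw [e]
    exact C.one_mem
  inv_mem' := by
    intro x hx p hp
    have e : x⁻¹ * p * x⁻¹⁻¹ * p⁻¹ = x⁻¹ * (x * p * x⁻¹ * p⁻¹)⁻¹ * x⁻¹⁻¹ := by group
    rw [e]
    exact hC.conj_mem _ (C.inv_mem (hx p hp)) x⁻¹

theorem mem_cen {P C : Subgroup H} {hC : C.Normal} {x : H} :
    x ∈ cen P C hC ↔ ∀ p ∈ P, x * p * x⁻¹ * p⁻¹ ∈ C := Iff.rfl

theorem cen_normal (P C : Subgroup H) (hP : P.Normal) (hC : C.Normal) : (cen P C hC).Normal := by
  refine ⟨fun x hx g p hp => ?_⟩
  have e : g * x * g⁻¹ * p * (g * x * g⁻¹)⁻¹ * p⁻¹ =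
      g * (x * (g⁻¹ * p * g) * x⁻¹ * (g⁻¹ * p * g)⁻¹) * g⁻¹ := by group
  rw [e]
  have hp' := hP.conj_mem p hp g⁻¹
  rw [inv_inv] at hp'
  exact hC.conj_mem _ (hx _ hp') g

theorem le_cen (P C : Subgroup H) (hC : C.Normal) : C ≤ cen P C hC := by
  intro c hc p hp
  have e : c * p * c⁻¹ * p⁻¹ = c * (p * c⁻¹ * p⁻¹) := by group
  rw [e]
  exact C.mul_mem hc (hC.conj_mem _ (C.inv_mem hc) p)

theorem exists_central (P B C : Subgroup H) (hP : Group.IsNilpotent P) (hB : B.Normal)
    (hC : C.Normal) (hBP : B ≤ P) (hBC : ¬ B ≤ C) : ∃ x ∈ B, x ∉ C ∧ x ∈ cen P C hC := by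
  classical
  obtain ⟨n, hn⟩ := hP.nilpotent'
  have hex : ∃ i, ∃ x : P, (x : H) ∈ B ∧ (x : H) ∉ C ∧ x ∈ Subgroup.upperCentralSeries P i := by
    obtain ⟨x, hx, hx'⟩ := Set.not_subset.1 hBC
    exact ⟨n, ⟨x, hBP hx⟩, hx, hx', by rw [hn]; trivial⟩
  obtain ⟨x, hxB, hxC, hxi⟩ := Nat.find_spec hex
  rcases Nat.eq_zero_or_pos (Nat.find hex) with h0 | h0
  · rw [h0, Subgroup.upperCentralSeries_zero, Subgroup.mem_bot] at hxi
    exfalso
    apply hxC
    rw [hxi]
    exact C.one_mem
  · obtain ⟨j, hj⟩ : ∃ j, Nat.find hex = j + 1 := ⟨Nat.find hex - 1, by omega⟩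
    refine ⟨x, hxB, hxC, fun p hp => ?_⟩
    by_contra hcon
    have h1 := Nat.find_min hex (m := j) (by omega)
    apply h1
    rw [hj, Subgroup.mem_upperCentralSeries_succ_iff] at hxi
    refine ⟨⁅x, ⟨p, hp⟩⁆, ?_, hcon, hxi ⟨p, hp⟩⟩
    change (x : H) * p * (x : H)⁻¹ * p⁻¹ ∈ B
    have e : (x : H) * p * (x : H)⁻¹ * p⁻¹ = x * (p * (x : H)⁻¹ * p⁻¹) := by group
    rw [e]
    exact B.mul_mem hxB (hB.conj_mem _ (B.inv_mem hxB) p)

variable [Finite H]

theorem class_card (P C : Subgroup H) (hC : C.Normal) (d : H) (hd : d ∈ cen P C hC) :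
    {g : H | IsConj d g}.ncard ≤ P.index * Nat.card C := by
  classical
  let φ : (H ⧸ P) × C → H := fun a => (a.2 : H) * (a.1.out * d * a.1.out⁻¹)
  have hsub : {g : H | IsConj d g} ⊆ Set.range φ := by
    rintro g hg
    obtain ⟨h, rfl⟩ := isConj_iff.1 hg
    set t := (QuotientGroup.mk h : H ⧸ P).out with ht0
    have ht : t⁻¹ * h ∈ P := by
      rw [← QuotientGroup.eq, ht0]
      exact Quotient.out_eq' _
    set p := t⁻¹ * h with hp
    have h1 : p * d * p⁻¹ * d⁻¹ ∈ C := by
      have h2 := C.inv_mem (hd p ht)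
      have e : (d * p * d⁻¹ * p⁻¹)⁻¹ = p * d * p⁻¹ * d⁻¹ := by group
      rwa [e] at h2
    refine ⟨(QuotientGroup.mk h, ⟨t * (p * d * p⁻¹ * d⁻¹) * t⁻¹, hC.conj_mem _ h1 t⟩), ?_⟩
    change t * (p * d * p⁻¹ * d⁻¹) * t⁻¹ * (t * d * t⁻¹) = h * d * h⁻¹
    have e : h = t * p := by rw [hp]; group
    rw [e]
    group
  calc {g : H | IsConj d g}.ncard ≤ (Set.range φ).ncard := Set.ncard_le_ncard hsub (Set.toFinite _)
    _ ≤ Nat.card ((H ⧸ P) × C) := by
      rw [← Set.image_univ]
      exact (Set.ncard_image_le (Set.toFinite _)).trans (by rw [Set.ncard_univ])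
    _ = P.index * Nat.card C := Nat.card_prod _ _

/-- the number of conjugacy classes meeting a set -/
noncomputable def ncl (S : Set H) : ℕ := (ConjClasses.mk '' S).ncard

theorem ncl_mono {S T : Set H} (h : S ⊆ T) : ncl S ≤ ncl T :=
  Set.ncard_le_ncard (Set.image_mono h) (Set.toFinite _)

theorem card_le_classes (S : Set H) (M : ℕ) (hM : ∀ x ∈ S, {g : H | IsConj x g}.ncard ≤ M) :
    S.ncard ≤ M * ncl S := by
  classical
  have h1 := Finset.card_le_mul_card_image (f := ConjClasses.mk) (Set.toFinite S).toFinset M (by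
    intro c hc
    rw [Finset.mem_image] at hc
    obtain ⟨x, hx, rfl⟩ := hc
    rw [Set.Finite.mem_toFinset] at hx
    refine le_trans ?_ (hM x hx)
    rw [← Set.ncard_coe_finset]
    apply Set.ncard_le_ncard _ (Set.toFinite _)
    intro g hg
    rw [Finset.mem_coe, Finset.mem_filter] at hg
    rw [Set.mem_ofPred_eq, ← ConjClasses.mk_eq_mk_iff_isConj]
    exact hg.2.symm)
  rw [Set.ncard_eq_toFinset_card S (Set.toFinite S)]
  refine h1.trans (Nat.mul_le_mul_left _ ?_)
  rw [ncl, ← Set.ncard_coe_finset, Finset.coe_image, Set.Finite.coe_toFinset]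

theorem count (P C D : Subgroup H) (hC : C.Normal) (hCD : C ≤ D) (hD : D ≤ cen P C hC)
    {k r : ℕ} (hk : P.index ≤ k) (hr : ncl ((D : Set H) \ C) ≤ r) :
    Nat.card D ≤ Nat.card C * (1 + r * k) := by
  have h1 : ((D : Set H) \ C).ncard ≤ (P.index * Nat.card C) * ncl ((D : Set H) \ C) :=
    card_le_classes _ _ (fun x hx => class_card P C hC x (hD hx.1))
  have h2 : ((D : Set H) \ C).ncard + (C : Set H).ncard = (D : Set H).ncard :=
    Set.ncard_sdiff_add_ncard_of_subset (SetLike.coe_subset_coe.2 hCD) (Set.toFinite _)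
  have h3 : (C : Set H).ncard = Nat.card C := rfl
  have h4 : (D : Set H).ncard = Nat.card D := rfl
  have h5 : (P.index * Nat.card C) * ncl ((D : Set H) \ C) ≤ (k * Nat.card C) * r :=
    Nat.mul_le_mul (Nat.mul_le_mul_right _ hk) hr
  rw [← h4, ← h2, h3]
  calc ((D : Set H) \ C).ncard + Nat.card C ≤ (k * Nat.card C) * r + Nat.card C := by omega
    _ = Nat.card C * (1 + r * k) := by ring

theorem abelian_bound (P B : Subgroup H) (hPn : P.Normal) (hP : Group.IsNilpotent P)
    (hB : B.Normal) (hBP : B ≤ P) {k m : ℕ} (hk : P.index ≤ k)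
    (hm : ncl ((B : Set H) \ {1}) ≤ m) : ∀ (r : ℕ) (C : Subgroup H), C.Normal → C ≤ B →
    ncl ((B : Set H) \ C) ≤ r → Nat.card B ≤ Nat.card C * (1 + m * k) ^ r := by
  intro r
  induction r with
  | zero =>
    intro C hC hCB hr
    have h1 : ConjClasses.mk '' ((B : Set H) \ C) = ∅ := by
      rw [← Set.ncard_eq_zero (Set.toFinite _)]
      exact Nat.le_zero.1 hr
    rw [Set.image_eq_empty, Set.sdiff_eq_empty] at h1
    rw [pow_zero, mul_one]
    exact Nat.card_le_card_of_injective (Subgroup.inclusion h1) (Subgroup.inclusion_injective h1)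
  | succ r ih =>
    intro C hC hCB hr
    by_cases hBC : B ≤ C
    · calc Nat.card B ≤ Nat.card C :=
            Nat.card_le_card_of_injective (Subgroup.inclusion hBC) (Subgroup.inclusion_injective hBC)
        _ ≤ Nat.card C * (1 + m * k) ^ (r + 1) := Nat.le_mul_of_pos_right _ (by positivity)
    · obtain ⟨x, hxB, hxC, hx⟩ := exists_central P B C hP hB hC hBP hBC
      have hDn : (B ⊓ cen P C hC).Normal := by
        have := cen_normal P C hPn hC
        infer_instance
      have hCD : C ≤ B ⊓ cen P C hC := le_inf hCB (le_cen P C hC)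
      have h1 : ncl ((B : Set H) \ (B ⊓ cen P C hC : Subgroup H)) ≤ r := by
        have h2 : ConjClasses.mk x ∉ ConjClasses.mk '' ((B : Set H) \ (B ⊓ cen P C hC : Subgroup H)) := by
          rintro ⟨y, hy, hxy⟩
          rw [ConjClasses.mk_eq_mk_iff_isConj, isConj_comm] at hxy
          obtain ⟨c, rfl⟩ := isConj_iff.1 hxy
          exact hy.2 (hDn.conj_mem x ⟨hxB, hx⟩ c)
        have h3 : insert (ConjClasses.mk x) (ConjClasses.mk '' ((B : Set H) \ (B ⊓ cen P C hC : Subgroup H))) ⊆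
            ConjClasses.mk '' ((B : Set H) \ C) := by
          intro c hc
          rcases hc with rfl | ⟨y, hy, rfl⟩
          · exact ⟨x, ⟨hxB, hxC⟩, rfl⟩
          · exact ⟨y, ⟨hy.1, fun h => hy.2 (hCD h)⟩, rfl⟩
        have h4 := Set.ncard_le_ncard h3 (Set.toFinite _)
        rw [Set.ncard_insert_of_notMem h2 (Set.toFinite _)] at h4
        have h5 : (ConjClasses.mk '' ((B : Set H) \ C)).ncard ≤ r + 1 := hr
        change (ConjClasses.mk '' ((B : Set H) \ (B ⊓ cen P C hC : Subgroup H))).ncard ≤ r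
        omega
      have h2 := ih (B ⊓ cen P C hC) hDn inf_le_left h1
      have h3 : Nat.card (B ⊓ cen P C hC : Subgroup H) ≤ Nat.card C * (1 + m * k) := by
        apply count P C _ hC hCD inf_le_right hk
        refine le_trans (ncl_mono ?_) hm
        rintro y ⟨hy1, hy2⟩
        refine ⟨hy1.1, ?_⟩
        rintro rfl
        exact hy2 C.one_mem
      calc Nat.card B ≤ Nat.card (B ⊓ cen P C hC : Subgroup H) * (1 + m * k) ^ r := h2
        _ ≤ (Nat.card C * (1 + m * k)) * (1 + m * k) ^ r := Nat.mul_le_mul_right _ h3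
        _ = Nat.card C * (1 + m * k) ^ (r + 1) := by rw [pow_succ]; ring

/-- the bound -/
def fP (m k : ℕ) : ℕ :=
  (1 + m * k) ^ m * ((1 + m * k) ^ m * (k * (m + 1)) ^ k).factorial

omit [Finite H] in
theorem mem_sup_normal {Y A : Subgroup H} (hA : A.Normal) {x : H} :
    x ∈ Y ⊔ A ↔ ∃ y ∈ Y, ∃ a ∈ A, x = y * a := by
  rw [← SetLike.mem_coe, Subgroup.mul_normal, Set.mem_mul]
  constructor
  · rintro ⟨y, hy, a, ha, rfl⟩
    exact ⟨y, hy, a, ha, rfl⟩
  · rintro ⟨y, hy, a, ha, rfl⟩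
    exact ⟨y, hy, a, ha, rfl⟩

theorem card_mul_aut_le (C : Type) [Group C] [Finite C] :
    Nat.card (MulAut C) ≤ (Nat.card C).factorial := by
  rw [← Nat.card_perm]
  apply Nat.card_le_card_of_injective (fun e : MulAut C => (e.toEquiv : Equiv.Perm C))
  intro a b h
  exact MulEquiv.toEquiv_injective h

/-- **The bound for nilpotent normal subgroups.** -/
theorem abs_bound (m k : ℕ) (𝓘 : Set (Subgroup H))
    (hZ : ∀ I ∈ 𝓘, {c : ConjClasses H | ∀ g, ConjClasses.mk g = c → g ∉ I}.ncard ≤ m)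
    (hR : ∀ B : Subgroup H, B.Normal → (∀ x ∈ B, ∀ y ∈ B, x * y = y * x) →
      ∃ I ∈ 𝓘, ∀ x ∈ B, x ∈ I → x = 1)
    (P : Subgroup H) (hPn : P.Normal) (hP : Group.IsNilpotent P) (hk : P.index ≤ k) :
    Nat.card P ≤ fP m k := by
  classical
  -- abelian normal subgroups
  have habel : ∀ B : Subgroup H, B.Normal → (∀ x ∈ B, ∀ y ∈ B, x * y = y * x) → B ≤ P →
      Nat.card B ≤ (1 + m * k) ^ m := by
    intro B hB hBc hBP
    obtain ⟨I, hI, hIB⟩ := hR B hB hBc
    have hm : ncl ((B : Set H) \ {1}) ≤ m := by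
      refine le_trans (Set.ncard_le_ncard ?_ (Set.toFinite _)) (hZ I hI)
      rintro c ⟨x, ⟨hxB, hx1⟩, rfl⟩
      intro g hg hgI
      rw [ConjClasses.mk_eq_mk_iff_isConj, isConj_comm] at hg
      obtain ⟨u, rfl⟩ := isConj_iff.1 hg
      have h1 := hIB _ (hB.conj_mem x hxB u) hgI
      apply hx1
      have h2 : x = u⁻¹ * (u * x * u⁻¹) * u := by group
      rw [Set.mem_singleton_iff, h2, h1]
      group
    have h1 := abelian_bound P B hPn hP hB hBP hk hm m ⊥ inferInstance bot_le (by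
      rw [Subgroup.coe_bot]
      exact hm)
    rw [Subgroup.card_bot, one_mul] at h1
    exact h1
  -- a maximal one
  let 𝒜 : Set (Subgroup H) := {A | A.Normal ∧ (∀ x ∈ A, ∀ y ∈ A, x * y = y * x) ∧ A ≤ P}
  obtain ⟨A, hAmax⟩ := (Set.toFinite 𝒜).exists_maximal ⟨⊥, inferInstance, by
    intro x hx y hy
    rw [Subgroup.mem_bot] at hx hy
    rw [hx, hy], bot_le⟩
  obtain ⟨hA, hAc, hAP⟩ : A ∈ 𝒜 := hAmax.prop
  have hAtop : ∀ B : Subgroup H, B.Normal → (∀ x ∈ B, ∀ y ∈ B, x * y = y * x) → B ≤ P → A ≤ B →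
      B ≤ A := fun B h1 h2 h3 h4 => hAmax.le_of_ge (show B ∈ 𝒜 from ⟨h1, h2, h3⟩) h4
  obtain ⟨I, hI, hIA⟩ := hR A hA hAc
  have hcenA : (Subgroup.centralizer (A : Set H)).Normal := inferInstance
  have hcenn := cen_normal P A hPn hA
  set C : Subgroup H := (P ⊓ Subgroup.centralizer (A : Set H)) ⊓ cen P A hA with hC
  have hCn : C.Normal := inferInstance
  have hCP : C ≤ P := inf_le_left.trans inf_le_left
  have hCA : C ≤ Subgroup.centralizer (A : Set H) := inf_le_left.trans inf_le_right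
  have hCc : C ≤ cen P A hA := inf_le_right
  have hAC : A ≤ C := by
    refine le_inf (le_inf hAP ?_) (le_cen P A hA)
    intro a ha
    rw [Subgroup.mem_centralizer_iff]
    intro b hb
    exact hAc b hb a ha
  have hcomA : ∀ c ∈ C, ∀ a ∈ A, c * a = a * c := by
    intro c hc a ha
    have := Subgroup.mem_centralizer_iff.1 (hCA hc) a ha
    exact this.symm
  -- the center of `C` is `A`
  have hZC : C ⊓ Subgroup.centralizer (C : Set H) ≤ A := by
    apply hAtop
    · infer_instance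
    · rintro x ⟨hx1, hx2⟩ y ⟨hy1, _⟩
      exact (Subgroup.mem_centralizer_iff.1 hx2 y hy1).symm
    · exact inf_le_left.trans hCP
    · refine le_inf hAC ?_
      intro a ha
      rw [Subgroup.mem_centralizer_iff]
      intro c hc
      exact hcomA c hc a ha
  -- the subgroup `X`
  set Y : Subgroup H := I ⊓ C with hY
  set X : Subgroup H := Y ⊔ A with hX
  have hmemX : ∀ x, x ∈ X ↔ ∃ y ∈ Y, ∃ a ∈ A, x = y * a := fun x => mem_sup_normal hA
  have hYX : Y ≤ X := le_sup_left
  have hAX : A ≤ X := le_sup_right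
  have hXC : X ≤ C := sup_le inf_le_right hAC
  have hYc : ∀ x ∈ Y, ∀ y ∈ Y, x * y = y * x := by
    rintro x ⟨hx1, hx2⟩ y ⟨hy1, hy2⟩
    have h1 : x * y * x⁻¹ * y⁻¹ ∈ A := hCc hx2 y (hCP hy2)
    have h2 := hIA _ h1 (I.mul_mem (I.mul_mem (I.mul_mem hx1 hy1) (I.inv_mem hx1)) (I.inv_mem hy1))
    have h3 : x * y = (x * y * x⁻¹ * y⁻¹) * (y * x) := by group
    rw [h3, h2, one_mul]
  have hXc : ∀ x ∈ X, ∀ y ∈ X, x * y = y * x := by
    intro x hx y hy
    obtain ⟨u, hu, a, ha, rfl⟩ := (hmemX x).1 hx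
    obtain ⟨v, hv, b, hb, rfl⟩ := (hmemX y).1 hy
    have h1 : a * v = v * a := (hcomA v hv.2 a ha).symm
    have h2 : b * u = u * b := (hcomA u hu.2 b hb).symm
    calc u * a * (v * b) = u * (a * v) * b := by group
      _ = u * v * (a * b) := by rw [h1]; group
      _ = v * u * (b * a) := by rw [hYc u hu v hv, hAc a ha b hb]
      _ = v * (u * b) * a := by group
      _ = v * b * (u * a) := by rw [← h2]; group
  have hXP : ∀ p ∈ P, ∀ x ∈ X, p * x * p⁻¹ ∈ X := by
    intro p hp x hx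
    obtain ⟨y, hy, a, ha, rfl⟩ := (hmemX x).1 hx
    have h1 : p * y * p⁻¹ * y⁻¹ ∈ A := by
      have h2 := A.inv_mem (hCc hy.2 p hp)
      have e : (y * p * y⁻¹ * p⁻¹)⁻¹ = p * y * p⁻¹ * y⁻¹ := by group
      rwa [e] at h2
    have e : p * (y * a) * p⁻¹ = (p * y * p⁻¹ * y⁻¹) * y * (p * a * p⁻¹) := by group
    rw [e]
    exact X.mul_mem (X.mul_mem (hAX h1) (hYX hy)) (hAX (hA.conj_mem a ha p))
  -- its conjugates
  let Xq : H ⧸ P → Subgroup H := fun q => X.map (MulAut.conj q.out).toMonoidHom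
  have hXq : ∀ q x, x ∈ Xq q ↔ q.out⁻¹ * x * q.out ∈ X := by
    intro q x
    constructor
    · rintro ⟨y, hy, rfl⟩
      have : q.out⁻¹ * ((MulAut.conj q.out).toMonoidHom y) * q.out = y := by
        change q.out⁻¹ * (q.out * y * q.out⁻¹) * q.out = y
        group
      rw [this]
      exact hy
    · intro h
      refine ⟨_, h, ?_⟩
      change q.out * (q.out⁻¹ * x * q.out) * q.out⁻¹ = x
      group
  have hany : ∀ (h : H) (x : H), x ∈ Xq (QuotientGroup.mk h) → h⁻¹ * x * h ∈ X := by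
    intro h x hx
    rw [hXq] at hx
    set t := (QuotientGroup.mk h : H ⧸ P).out with ht0
    have ht : t⁻¹ * h ∈ P := by
      rw [← QuotientGroup.eq, ht0]
      exact Quotient.out_eq' _
    have h1 := hXP _ (P.inv_mem ht) _ hx
    have e : (t⁻¹ * h)⁻¹ * (t⁻¹ * x * t) * (t⁻¹ * h)⁻¹⁻¹ = h⁻¹ * x * h := by group
    rwa [e] at h1
  have hany' : ∀ (h : H) (x : H), h⁻¹ * x * h ∈ X → x ∈ Xq (QuotientGroup.mk h) := by
    intro h x hx
    rw [hXq]
    set t := (QuotientGroup.mk h : H ⧸ P).out with ht0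
    have ht : t⁻¹ * h ∈ P := by
      rw [← QuotientGroup.eq, ht0]
      exact Quotient.out_eq' _
    have h1 := hXP _ ht _ hx
    have e : (t⁻¹ * h) * (h⁻¹ * x * h) * (t⁻¹ * h)⁻¹ = t⁻¹ * x * t := by group
    rwa [e] at h1
  have hXqC : ∀ q, Xq q ≤ C := by
    intro q x hx
    rw [hXq] at hx
    have h1 := hCn.conj_mem _ (hXC hx) q.out
    have e : q.out * (q.out⁻¹ * x * q.out) * q.out⁻¹ = x := by group
    rwa [e] at h1
  have hXqcard : ∀ q, Nat.card (Xq q) = Nat.card X := fun q =>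
    Subgroup.card_map_of_injective (MulAut.conj q.out).injective
  have hidx : P.index = Nat.card (H ⧸ P) := rfl
  -- the size of `C`
  have hsize : Nat.card C ≤ k * (m + 1) * Nat.card X := by
    let Miss : Set H := {x | x ∈ C ∧ ∀ g, g * x * g⁻¹ ∉ I}
    have hcov : (C : Set H) ⊆ (⋃ q, (Xq q : Set H)) ∪ Miss := by
      intro x hx
      by_cases h : ∀ g, g * x * g⁻¹ ∉ I
      · right
        exact ⟨hx, h⟩
      · left
        push Not at h
        obtain ⟨g, hg⟩ := h
        rw [Set.mem_iUnion]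
        refine ⟨QuotientGroup.mk g⁻¹, ?_⟩
        apply hany'
        rw [inv_inv]
        exact hYX ⟨hg, hCn.conj_mem x hx g⟩
    have h1 : Miss.ncard ≤ (k * Nat.card A) * m := by
      have h2 := card_le_classes Miss (k * Nat.card A) (fun x hx =>
        (class_card P A hA x (hCc hx.1)).trans (Nat.mul_le_mul_right _ hk))
      refine h2.trans (Nat.mul_le_mul_left _ ?_)
      refine le_trans (Set.ncard_le_ncard ?_ (Set.toFinite _)) (hZ I hI)
      rintro c ⟨x, hx, rfl⟩
      intro g hg hgI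
      rw [ConjClasses.mk_eq_mk_iff_isConj, isConj_comm] at hg
      obtain ⟨u, rfl⟩ := isConj_iff.1 hg
      exact hx.2 u hgI
    have h2 : (⋃ q, (Xq q : Set H)).ncard ≤ k * Nat.card X := by
      have hfq : Fintype (H ⧸ P) := Fintype.ofFinite _
      have h3 : (⋃ q, (Xq q : Set H)) = ⋃ q ∈ (Finset.univ : Finset (H ⧸ P)), (Xq q : Set H) := by
        simp
      rw [h3]
      refine (Finset.set_ncard_biUnion_le _ _).trans ?_
      have h4 : ∀ q ∈ (Finset.univ : Finset (H ⧸ P)), (Xq q : Set H).ncard = Nat.card X :=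
        fun q _ => hXqcard q
      rw [Finset.sum_congr rfl h4, Finset.sum_const, Finset.card_univ, smul_eq_mul,
        ← Nat.card_eq_fintype_card]
      exact Nat.mul_le_mul_right _ hk
    have h3 : Nat.card A ≤ Nat.card X :=
      Nat.card_le_card_of_injective (Subgroup.inclusion hAX) (Subgroup.inclusion_injective hAX)
    calc Nat.card C = (C : Set H).ncard := rfl
      _ ≤ ((⋃ q, (Xq q : Set H)) ∪ Miss).ncard := Set.ncard_le_ncard hcov (Set.toFinite _)
      _ ≤ (⋃ q, (Xq q : Set H)).ncard + Miss.ncard := Set.ncard_union_le _ _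
      _ ≤ k * Nat.card X + (k * Nat.card A) * m := Nat.add_le_add h2 h1
      _ ≤ k * Nat.card X + (k * Nat.card X) * m :=
        Nat.add_le_add_left (Nat.mul_le_mul_right _ (Nat.mul_le_mul_left _ h3)) _
      _ = k * (m + 1) * Nat.card X := by ring
  have hrel : ∀ q, (Xq q).relIndex C ≤ k * (m + 1) := by
    intro q
    have h1 : (Xq q).relIndex C * Nat.card (Xq q) = Nat.card C := by
      have h2 := Subgroup.card_mul_index ((Xq q).subgroupOf C)
      rw [Nat.card_congr (Subgroup.subgroupOfEquivOfLe (hXqC q)).toEquiv, mul_comm] at h2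
      exact h2
    rw [hXqcard] at h1
    have h2 : (Xq q).relIndex C * Nat.card X ≤ k * (m + 1) * Nat.card X := by rw [h1]; exact hsize
    exact Nat.le_of_mul_le_mul_right h2 Nat.card_pos
  have hk1 : 1 ≤ k := by
    have : P.index ≠ 0 := Subgroup.index_ne_zero_of_finite
    omega
  have hcore : (⨅ q, Xq q) ≤ A := by
    have h1 : ∀ x ∈ (⨅ q, Xq q), ∀ h : H, h⁻¹ * x * h ∈ X := by
      intro x hx h
      rw [Subgroup.mem_iInf] at hx
      exact hany h x (hx _)
    have h2 : (⨅ q, Xq q) ≤ X := by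
      intro x hx
      have := h1 x hx 1
      simpa using this
    apply hAtop
    · refine ⟨fun x hx g => ?_⟩
      rw [Subgroup.mem_iInf]
      intro q
      rw [hXq]
      have h3 := h1 x hx (g⁻¹ * q.out)
      have e : (g⁻¹ * q.out)⁻¹ * x * (g⁻¹ * q.out) = q.out⁻¹ * (g * x * g⁻¹) * q.out := by group
      rwa [e] at h3
    · intro x hx y hy
      exact hXc x (h2 hx) y (h2 hy)
    · exact h2.trans (hXC.trans hCP)
    · apply le_iInf
      intro q a ha
      rw [hXq]
      have h3 := hA.conj_mem a ha q.out⁻¹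
      rw [inv_inv] at h3
      exact hAX h3
  have hACcard : Nat.card C ≤ (1 + m * k) ^ m * (k * (m + 1)) ^ k := by
    have hfq : Fintype (H ⧸ P) := Fintype.ofFinite _
    have h1 := Subgroup.relIndex_iInf_le (L := C) Xq
    have h2 : ∏ q, (Xq q).relIndex C ≤ (k * (m + 1)) ^ k := by
      refine (Finset.prod_le_pow_card Finset.univ _ (k * (m + 1)) (fun q _ => hrel q)).trans ?_
      apply Nat.pow_le_pow_right
      · exact Nat.mul_pos (by omega) (by omega)
      · rw [Finset.card_univ, ← Nat.card_eq_fintype_card]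
        exact hk
    have h3 : (⨅ q, Xq q).relIndex C * Nat.card (⨅ q, Xq q : Subgroup H) = Nat.card C := by
      have h4 := Subgroup.card_mul_index ((⨅ q, Xq q).subgroupOf C)
      have h5 : (⨅ q, Xq q) ≤ C := (iInf_le _ (QuotientGroup.mk 1)).trans (hXqC _)
      rw [Nat.card_congr (Subgroup.subgroupOfEquivOfLe h5).toEquiv, mul_comm] at h4
      exact h4
    have h4 : Nat.card (⨅ q, Xq q : Subgroup H) ≤ Nat.card A :=
      Nat.card_le_card_of_injective (Subgroup.inclusion hcore) (Subgroup.inclusion_injective hcore)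
    rw [← h3, mul_comm ((1 + m * k) ^ m)]
    exact Nat.mul_le_mul (h1.trans h2) (h4.trans (habel A hA hAc hAP))
  -- the centralizer of `C` in `P`
  have hcent : P ⊓ Subgroup.centralizer (C : Set H) ≤ A := by
    by_contra hcon
    obtain ⟨x, ⟨hxP, hxC⟩, hxA, hx⟩ := exists_central P (P ⊓ Subgroup.centralizer (C : Set H)) A hP
      inferInstance hA inf_le_left hcon
    apply hxA
    apply hZC
    refine ⟨⟨⟨hxP, ?_⟩, hx⟩, hxC⟩
    change x ∈ Subgroup.centralizer (A : Set H)
    rw [Subgroup.mem_centralizer_iff]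
    intro a ha
    exact Subgroup.mem_centralizer_iff.1 hxC a (hAC ha)
  let ψ : P →* MulAut C := (MulAut.conjNormal : H →* MulAut C).comp P.subtype
  have hker : Nat.card ψ.ker ≤ Nat.card A := by
    have h1 : ∀ p : ψ.ker, ((p : P) : H) ∈ A := by
      rintro ⟨p, hp⟩
      apply hcent
      refine ⟨p.2, ?_⟩
      change (p : H) ∈ Subgroup.centralizer (C : Set H)
      rw [Subgroup.mem_centralizer_iff]
      intro c hc
      have h2 : (MulAut.conjNormal (p : H) : MulAut C) = 1 := hp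
      have h3 := congrArg (fun e : MulAut C => ((e ⟨c, hc⟩ : C) : H)) h2
      change ((MulAut.conjNormal (p : H) : MulAut C) ⟨c, hc⟩ : H) = c at h3
      rw [MulAut.conjNormal_apply] at h3
      rw [mul_inv_eq_iff_eq_mul] at h3
      exact h3.symm
    exact Nat.card_le_card_of_injective (fun p : ψ.ker => (⟨((p : P) : H), h1 p⟩ : A)) (by
      intro p p' h
      apply Subtype.ext
      apply Subtype.ext
      exact congrArg (fun a : A => (a : H)) h)
  have hrange : Nat.card (P ⧸ ψ.ker) ≤ (Nat.card C).factorial := by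
    rw [Nat.card_congr (QuotientGroup.quotientKerEquivRange ψ).toEquiv]
    refine le_trans ?_ (card_mul_aut_le C)
    exact Nat.card_le_card_of_injective _ Subtype.val_injective
  have hA1 := habel A hA hAc hAP
  rw [Subgroup.card_eq_card_quotient_mul_card_subgroup ψ.ker, mul_comm]
  exact Nat.mul_le_mul (hker.trans hA1) (hrange.trans (Nat.factorial_le hACcard))

end Pool.Agent.K3h11.Zer
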