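import Pool.Agent.R677.Zeros.Base

/-!
# Irreducible characters over a linear character of a normal subgroup, and their zeros
-/

set_option autoImplicit false
open CategoryTheory

namespace Pool.Agent.K3h11.Zer
open Pool.Agent.W367.SN Pool.Agent.Helper199.RepDim Pool.Agent.R677.Zeros

/-- There is a simple representation with a vector on which the subgroup acts by the given
linear character. -/
theorem exists_over {G : Type} [Group G] [Fintype G] (F : Subgroup G) (l : F →* ℂˣ) :
    ∃ V : FDRep ℂ G, Simple V ∧ ∃ v : V, v ≠ 0 ∧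
      ∀ f : F, V.ρ (f : G) v = ((l f : ℂˣ) : ℂ) • v := by
  classical
  have hne : NeZero (Nat.card G : ℂ) := ⟨by exact_mod_cast Nat.card_pos.ne'⟩
  let R := MonoidAlgebra ℂ G
  let δ : G →* R := MonoidAlgebra.of ℂ G
  let e : R := ∑ f : F, ((l f⁻¹ : ℂˣ) : ℂ) • δ (f : G)
  have he : ∀ b : F, δ (b : G) * e = ((l b : ℂˣ) : ℂ) • e := by
    intro b
    change δ (b : G) * (∑ f : F, ((l f⁻¹ : ℂˣ) : ℂ) • δ (f : G)) =
      ((l b : ℂˣ) : ℂ) • (∑ f : F, ((l f⁻¹ : ℂˣ) : ℂ) • δ (f : G))
    rw [Finset.mul_sum, Finset.smul_sum]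
    rw [← Equiv.sum_comp (Equiv.mulLeft b⁻¹)]
    apply Finset.sum_congr rfl
    intro a _
    have e1 : ((Equiv.mulLeft b⁻¹) a) = b⁻¹ * a := rfl
    have e2 : (b : G) * ((b⁻¹ * a : F) : G) = (a : G) := by
      simp
    have e3 : (b⁻¹ * a)⁻¹ = a⁻¹ * b := by rw [mul_inv_rev, inv_inv]
    rw [e1, mul_smul_comm, ← map_mul, e2, e3, map_mul, Units.val_mul, smul_smul, mul_comm]
  have he0 : e ≠ 0 := by
    intro h
    have h1 : e.coeff 1 = 0 := by rw [h]; rfl
    have h2 : e.coeff 1 = ∑ f : F, ((l f⁻¹ : ℂˣ) : ℂ) * (if (f : G) = 1 then 1 else 0) := by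
      change (∑ f : F, ((l f⁻¹ : ℂˣ) : ℂ) • δ (f : G)).coeff 1 = _
      rw [MonoidAlgebra.coeff_sum, Finsupp.finsetSum_apply]
      apply Finset.sum_congr rfl
      intro g _
      rw [MonoidAlgebra.coeff_smul_apply, smul_eq_mul]
      congr 1
      change (MonoidAlgebra.single (g : G) (1 : ℂ)).coeff 1 = _
      rw [MonoidAlgebra.coeff_single, Finsupp.single_apply]
    rw [h1, Finset.sum_eq_single (1 : F)] at h2
    · simp at h2
    · intro b _ hb
      rw [if_neg, mul_zero]
      intro h3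
      exact hb (Subtype.ext h3)
    · intro h3
      exact absurd (Finset.mem_univ _) h3
  -- a simple left ideal not killed by `e`
  obtain ⟨m, hm, x, hx, hex⟩ : ∃ m : Submodule R R, IsSimpleModule R m ∧ ∃ x ∈ m, e * x ≠ 0 := by
    by_contra hcon
    push Not at hcon
    have h1 : (1 : R) ∈ (⊤ : Submodule R R) := trivial
    rw [← IsSemisimpleModule.sSup_simples_eq_top R R, sSup_eq_iSup'] at h1
    have h2 : e * 1 = 0 := by
      refine Submodule.iSup_induction _ (motive := fun x => e * x = 0) h1 ?_ ?_ ?_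
      · intro i x hx
        exact hcon i.1 i.2 x hx
      · rw [mul_zero]
      · intro x y hx hy; rw [mul_add, hx, hy, add_zero]
    rw [mul_one] at h2
    exact he0 h2
  obtain ⟨V, hV, φ, hφ, hinj, hφg⟩ := simple_piece m hm
  obtain ⟨v, hv⟩ := hφ (e * x) (m.smul_mem e hx)
  refine ⟨V, hV, v, ?_, ?_⟩
  · rintro rfl
    rw [map_zero] at hv
    exact hex hv.symm
  · intro f
    apply hinj
    rw [hφg, hv, map_smul, hv, ← mul_assoc]
    have := he f
    change δ (f : G) * e = _ at this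
    change δ (f : G) * e * x = _
    rw [this, smul_mul_assoc]

/-- The zeros of an irreducible character over `l`. -/
theorem vanish {G : Type} [Group G] [Fintype G] (F : Subgroup G) [F.Normal] (l : F →* ℂˣ)
    (V : FDRep ℂ G) (hV : Simple V) (v : V) (hv0 : v ≠ 0)
    (hv : ∀ f : F, V.ρ (f : G) v = ((l f : ℂˣ) : ℂ) • v) (x : G)
    (hx : ∀ g : G, ¬ ∀ f : F, l (MulAut.conjNormal (g * x * g⁻¹) f) = l f) :
    V.character x = 0 := by
  classical
  let P : V →ₗ[ℂ] V := ∑ f : F, ((l f⁻¹ : ℂˣ) : ℂ) • V.ρ (f : G)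
  have hPv : P v = (Nat.card F : ℂ) • v := by
    simp only [P, LinearMap.sum_apply, LinearMap.smul_apply, hv, smul_smul]
    have h1 : ∀ f : F, (((l f⁻¹ : ℂˣ) : ℂ) * ((l f : ℂˣ) : ℂ)) • v = v := by
      intro f
      rw [← Units.val_mul, ← map_mul, inv_mul_cancel, map_one, Units.val_one, one_smul]
    rw [Finset.sum_congr rfl (fun f _ => h1 f), Finset.sum_const, Finset.card_univ,
      Nat.card_eq_fintype_card, Nat.cast_smul_eq_nsmul]
  have hPy : ∀ g : G, P (V.ρ (g * x * g⁻¹) v) = 0 := by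
    intro g
    set y := g * x * g⁻¹ with hy
    have h1 : ∀ f : F, V.ρ (f : G) (V.ρ y v) =
        ((l (MulAut.conjNormal y⁻¹ f) : ℂˣ) : ℂ) • V.ρ y v := by
      intro f
      have h2 : (f : G) * y = y * ((MulAut.conjNormal y⁻¹ f : F) : G) := by
        rw [MulAut.conjNormal_apply]
        group
      rw [← Module.End.mul_apply, ← map_mul, h2, map_mul, Module.End.mul_apply, hv, map_smul]
    simp only [P, LinearMap.sum_apply, LinearMap.smul_apply, h1, smul_smul]
    rw [← Finset.sum_smul]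
    let μ : F →* ℂˣ := l⁻¹ * (l.comp (MulAut.conjNormal y⁻¹ : MulAut F).toMonoidHom)
    let μ' : F →* ℂ := (Units.coeHom ℂ).comp μ
    have h3 : ∀ f : F, ((l f⁻¹ : ℂˣ) : ℂ) * ((l (MulAut.conjNormal y⁻¹ f) : ℂˣ) : ℂ) = μ' f := by
      intro f
      rw [map_inv, ← Units.val_mul]
      rfl
    have h4 : μ' ≠ 1 := by
      intro h
      apply hx g
      intro f
      have h5 : μ' (MulAut.conjNormal y f) = 1 := by rw [h]; rfl
      rw [← h3] at h5
      have h6 : (MulAut.conjNormal y⁻¹ : MulAut F) (MulAut.conjNormal y f) = f := by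
        rw [← MulAut.mul_apply, ← map_mul, inv_mul_cancel, map_one, MulAut.one_apply]
      rw [h6, map_inv, ← Units.val_mul] at h5
      have h7 : (l (MulAut.conjNormal y f))⁻¹ * l f = 1 := Units.ext h5
      rw [inv_mul_eq_one] at h7
      exact h7
    rw [Finset.sum_congr rfl (fun f _ => h3 f), sum_hom_units_eq_zero μ' h4, zero_smul]
  have h1 := classSum V hV x v
  have h2 := congrArg P h1
  rw [map_smul, map_sum, Finset.sum_congr rfl (fun g _ => hPy g), Finset.sum_const_zero, smul_zero,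
    map_smul, hPv, smul_smul] at h2
  have h3 := (smul_eq_zero.1 h2.symm).resolve_right hv0
  have hF : (Nat.card F : ℂ) ≠ 0 := by exact_mod_cast Nat.card_pos.ne'
  have hG : (Fintype.card G : ℂ) ≠ 0 := by exact_mod_cast Fintype.card_ne_zero
  exact (mul_eq_zero.1 ((mul_eq_zero.1 h3).resolve_right hF)).resolve_left hG

/-- Inflation of irreducible characters. -/
theorem inflate {G Q : Type} [Group G] [Finite G] [Group Q] [Finite Q] (π : G →* Q)
    (hπ : Function.Surjective π) {χ : Q → ℂ} (hχ : χ ∈ IrrC Q) : (fun g => χ (π g)) ∈ IrrC G := by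
  obtain ⟨V, hV, rfl⟩ := hχ
  let ρ : Representation ℂ G V := V.ρ.comp π
  have hnt : Nontrivial V := by
    obtain ⟨w, hw⟩ := simple_nonzero V
    exact ⟨⟨w, 0, hw⟩⟩
  refine ⟨FDRep.of ρ, ?_, ?_⟩
  · apply simple_of_irred
    intro W hW
    by_cases h0 : W = ⊥
    · exact Or.inl h0
    · right
      apply simple_top V W _ h0
      intro q w hw
      obtain ⟨g, rfl⟩ := hπ q
      exact hW g w hw
  · rfl

end Pool.Agent.K3h11.Zer
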