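import Pool.Agent.K3h11.Zer.Pow
import Pool.Agent.K3h11.Zer.Clif

/-!
# Column orthogonality and the number of characters which do not vanish at an element
-/

set_option autoImplicit false
open CategoryTheory Polynomial

namespace Pool.Agent.K3h11.Zer
open Pool.Agent.W367.SN Pool.Agent.Helper199.RepDim Pool.Agent.R677.Zeros

variable {G : Type} [Group G]

theorem val_poly [Finite G] {χ : G → ℂ} (hχ : χ ∈ IrrC G) (ζ : ℂ)
    (hζ : IsPrimitiveRoot ζ (Nat.card G)) (x : G) :
    ∃ f : ℤ[X], ∀ j : ℕ, χ (x ^ j) = aeval (ζ ^ j) f := by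
  obtain ⟨V, hV, rfl⟩ := hχ
  obtain ⟨f, hf⟩ := trace_powers (V.ρ x) (Nat.card G) Nat.card_pos
    (by rw [← map_pow, pow_card_eq_one', map_one]) ζ hζ.pow_eq_one
    (fun i h0 hi => hζ.pow_ne_one_of_pos_of_lt h0.ne' hi)
  refine ⟨f, fun j => ?_⟩
  rw [← hf, ← map_pow]
  rfl

theorem conj_aeval (f : ℤ[X]) (z : ℂ) :
    (starRingEnd ℂ) (aeval z f) = aeval ((starRingEnd ℂ) z) f := by
  rw [aeval_def, aeval_def, hom_eval₂]
  congr 1
  exact Subsingleton.elim _ _

theorem val_inv [Finite G] {χ : G → ℂ} (hχ : χ ∈ IrrC G) (x : G) :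
    χ x⁻¹ = (starRingEnd ℂ) (χ x) := by
  set N := Nat.card G with hN
  have hN0 : 0 < N := Nat.card_pos
  set ζ : ℂ := Complex.exp (2 * Real.pi * Complex.I / N) with hζdef
  have hζ : IsPrimitiveRoot ζ N := Complex.isPrimitiveRoot_exp N hN0.ne'
  obtain ⟨f, hf⟩ := val_poly hχ ζ hζ x
  have h1 : x⁻¹ = x ^ (N - 1) := by
    rw [inv_eq_iff_mul_eq_one, ← pow_succ', Nat.sub_add_cancel hN0, hN, pow_card_eq_one']
  have h2 : (starRingEnd ℂ) ζ = ζ ^ (N - 1) := by
    have h3 : ζ * ζ ^ (N - 1) = 1 := by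
      rw [← pow_succ', Nat.sub_add_cancel hN0, hζ.pow_eq_one]
    have h4 : ζ * (starRingEnd ℂ) ζ = 1 := by
      rw [Complex.mul_conj, Complex.normSq_eq_norm_sq,
        Complex.norm_eq_one_of_pow_eq_one hζ.pow_eq_one hN0.ne']
      simp
    have h5 : ζ ≠ 0 := hζ.ne_zero hN0.ne'
    exact mul_left_cancel₀ h5 (h4.trans h3.symm)
  have h3 := hf 1
  rw [pow_one, pow_one] at h3
  rw [h1, hf, h3, conj_aeval, h2]

/-- the irreducible characters as a finset -/
noncomputable def irrS (G : Type) [Group G] [Fintype G] : Finset (G → ℂ) :=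
  (irr_finite (Γ := G)).toFinset

theorem mem_irrS [Fintype G] {χ : G → ℂ} : χ ∈ irrS G ↔ χ ∈ IrrC G :=
  Set.Finite.mem_toFinset _

theorem class_expand [Fintype G] (f : G → ℂ) (hf : ∀ g u, f (u * g * u⁻¹) = f g) (x : G) :
    f x = ∑ χ ∈ irrS G, ((Fintype.card G : ℂ)⁻¹ * ∑ g, f g * χ g⁻¹) * χ x := by
  classical
  have hG : (Fintype.card G : ℂ) ≠ 0 := by exact_mod_cast Fintype.card_ne_zero
  let F : G → ℂ := fun x => ∑ χ ∈ irrS G, ((Fintype.card G : ℂ)⁻¹ * ∑ g, f g * χ g⁻¹) * χ x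
  have h1 : (fun x => f x - F x) = 0 := by
    apply irr_complete
    · intro g u
      rw [hf]
      congr 1
      apply Finset.sum_congr rfl
      intro χ hχ
      rw [irr_class (mem_irrS.1 hχ)]
    · intro ψ hψ
      simp only [sub_mul, Finset.sum_sub_distrib]
      rw [sub_eq_zero]
      have h2 : ∑ g, F g * ψ g⁻¹ = ∑ χ ∈ irrS G,
          ((Fintype.card G : ℂ)⁻¹ * ∑ g, f g * χ g⁻¹) * ∑ g, χ g * ψ g⁻¹ := by
        simp only [F, Finset.sum_mul, Finset.mul_sum]
        rw [Finset.sum_comm]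
        apply Finset.sum_congr rfl
        intro χ _
        apply Finset.sum_congr rfl
        intro g _
        apply Finset.sum_congr rfl
        intro h _
        ring
      rw [h2, Finset.sum_eq_single ψ]
      · rw [irr_norm hψ]
        field_simp
      · intro χ hχ hne
        rw [irr_orth (mem_irrS.1 hχ) hψ hne, mul_zero]
      · intro h
        exact absurd (mem_irrS.2 hψ) h
  exact sub_eq_zero.1 (congrFun h1 x)

/-- The class of an element times its centralizer. -/
theorem card_class_mul [Finite G] (x : G) :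
    {g : G | IsConj x g}.ncard * Nat.card (Subgroup.centralizer {x}) = Nat.card G := by
  classical
  have := Fintype.ofFinite G
  have h1 := MulAction.card_orbit_mul_card_stabilizer_eq_card_group (ConjAct G) x
  have h2 : Fintype.card (MulAction.orbit (ConjAct G) x) = {g : G | IsConj x g}.ncard := by
    rw [← Nat.card_eq_fintype_card]
    congr 1
    apply congrArg
    ext g
    rw [ConjAct.mem_orbit_conjAct, isConj_comm]
    rfl
  have h3 : Fintype.card (MulAction.stabilizer (ConjAct G) x) =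
      Nat.card (Subgroup.centralizer {x}) := by
    rw [← Nat.card_eq_fintype_card]
    refine Nat.card_congr (Equiv.subtypeEquiv ConjAct.ofConjAct.toEquiv ?_)
    intro g
    rw [MulAction.mem_stabilizer_iff, ConjAct.smul_def, Subgroup.mem_centralizer_singleton_iff,
      mul_inv_eq_iff_eq_mul]
    rfl
  have h4 : Fintype.card (ConjAct G) = Nat.card G := by
    rw [Nat.card_eq_fintype_card]
    rfl
  rw [← h2, ← h3, h1, h4]

theorem col_orth [Fintype G] (x : G) :
    ∑ χ ∈ irrS G, χ x * χ x⁻¹ = (Nat.card (Subgroup.centralizer {x}) : ℂ) := by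
  classical
  have hG : (Fintype.card G : ℂ) ≠ 0 := by exact_mod_cast Fintype.card_ne_zero
  set f : G → ℂ := fun g => if IsConj x g then 1 else 0 with hf
  have hclass : ∀ g u, f (u * g * u⁻¹) = f g := by
    intro g u
    have h1 : IsConj g (u * g * u⁻¹) := isConj_iff.2 ⟨u, rfl⟩
    have h2 : IsConj x (u * g * u⁻¹) ↔ IsConj x g :=
      ⟨fun h => h.trans h1.symm, fun h => h.trans h1⟩
    simp only [hf, h2]
  have h1 := class_expand f hclass x
  have h2 : f x = 1 := by simp only [hf]; rw [if_pos (IsConj.refl x)]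
  have h3 : ∀ χ ∈ irrS G, ∑ g, f g * χ g⁻¹ = ({g : G | IsConj x g}.ncard : ℂ) * χ x⁻¹ := by
    intro χ hχ
    have h4 : ∀ g, f g * χ g⁻¹ = if IsConj x g then χ x⁻¹ else 0 := by
      intro g
      simp only [hf]
      split_ifs with h
      · obtain ⟨u, hu⟩ := isConj_iff.1 h
        rw [one_mul, ← hu]
        have : (u * x * u⁻¹)⁻¹ = u * x⁻¹ * u⁻¹ := by group
        rw [this, irr_class (mem_irrS.1 hχ)]
      · rw [zero_mul]
    rw [Finset.sum_congr rfl (fun g _ => h4 g), ← Finset.sum_filter, Finset.sum_const, nsmul_eq_mul]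
    congr 2
    rw [← Set.ncard_coe_finset]
    congr 1
    ext g
    simp
  rw [h2, Finset.sum_congr rfl (fun χ hχ => by rw [h3 χ hχ])] at h1
  have h5 : (({g : G | IsConj x g}.ncard : ℂ)) * ∑ χ ∈ irrS G, χ x * χ x⁻¹ = Fintype.card G := by
    rw [Finset.mul_sum]
    have h6 : (Fintype.card G : ℂ) = (Fintype.card G : ℂ) * 1 := by rw [mul_one]
    rw [h6, h1, Finset.mul_sum]
    apply Finset.sum_congr rfl
    intro χ _
    field_simp
  have h6 := card_class_mul x
  have h7 : (({g : G | IsConj x g}.ncard : ℂ)) * (Nat.card (Subgroup.centralizer {x}) : ℂ) =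
      Fintype.card G := by
    rw [← Nat.card_eq_fintype_card]
    exact_mod_cast h6
  have h8 : (({g : G | IsConj x g}.ncard : ℂ)) ≠ 0 := by
    intro h
    rw [h, zero_mul] at h7
    exact hG h7.symm
  exact mul_left_cancel₀ h8 (h5.trans h7.symm)

theorem col_norm [Fintype G] (x : G) :
    ∑ χ ∈ irrS G, ‖χ x‖ ^ 2 = (Nat.card (Subgroup.centralizer {x}) : ℝ) := by
  have h1 := col_orth x
  have h2 : ∀ χ ∈ irrS G, χ x * χ x⁻¹ = ((‖χ x‖ ^ 2 : ℝ) : ℂ) := by
    intro χ hχ
    rw [val_inv (mem_irrS.1 hχ), Complex.mul_conj, Complex.normSq_eq_norm_sq]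
  rw [Finset.sum_congr rfl h2, ← Complex.ofReal_sum] at h1
  exact_mod_cast h1

theorem centralizer_pow [Finite G] (x : G) (j : ℕ) (hj : j.Coprime (Nat.card G)) :
    Subgroup.centralizer {x ^ j} = Subgroup.centralizer {x} := by
  have h1 : IsCoprime (j : ℤ) (Nat.card G : ℤ) := Nat.isCoprime_iff_coprime.2 hj
  obtain ⟨a, b, hab⟩ := h1
  have h2 : x = (x ^ j) ^ a := by
    calc x = x ^ (1 : ℤ) := (zpow_one x).symm
      _ = x ^ (a * j + b * Nat.card G : ℤ) := by rw [hab]
      _ = (x ^ j) ^ a * (x ^ Nat.card G) ^ b := by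
        rw [zpow_add, mul_comm a, zpow_mul, mul_comm b, zpow_mul, zpow_natCast, zpow_natCast]
      _ = (x ^ j) ^ a := by rw [pow_card_eq_one', one_zpow, mul_one]
  ext g
  rw [Subgroup.mem_centralizer_singleton_iff, Subgroup.mem_centralizer_singleton_iff]
  constructor
  · intro h
    have h3 : Commute g (x ^ j) := h
    have h4 := h3.zpow_right a
    rw [← h2] at h4
    exact h4
  · intro h
    have h3 : Commute g x := h
    exact h3.pow_right j

/-- **The number of irreducible characters not vanishing at an element** is at most the order of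
its centralizer. -/
theorem nonvanish_card [Fintype G] (x : G) (S : Finset (G → ℂ)) (hS : S ⊆ irrS G)
    (hx : ∀ χ ∈ S, χ x ≠ 0) : S.card ≤ Nat.card (Subgroup.centralizer {x}) := by
  classical
  set N := Nat.card G with hN
  have hN0 : 0 < N := Nat.card_pos
  set ζ : ℂ := Complex.exp (2 * Real.pi * Complex.I / N) with hζdef
  have hζ : IsPrimitiveRoot ζ N := Complex.isPrimitiveRoot_exp N hN0.ne'
  have h0 : ∀ χ : G → ℂ, ∃ f : ℤ[X], χ ∈ IrrC G → ∀ j : ℕ, χ (x ^ j) = aeval (ζ ^ j) f := by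
    intro χ
    by_cases h : χ ∈ IrrC G
    · obtain ⟨f, hf⟩ := val_poly h ζ hζ x
      exact ⟨f, fun _ => hf⟩
    · exact ⟨0, fun h' => absurd h' h⟩
  choose f hf using h0
  have h1 : ∀ w ∈ primitiveRoots N ℂ, ∑ χ ∈ irrS G, ‖aeval w (f χ)‖ ^ 2 =
      (Nat.card (Subgroup.centralizer {x}) : ℝ) := by
    intro w hw
    rw [mem_primitiveRoots hN0] at hw
    obtain ⟨j, hj, hc, rfl⟩ := (hζ.isPrimitiveRoot_iff).1 hw
    have h2 := col_norm (x ^ j)
    rw [centralizer_pow x j hc] at h2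
    rw [← h2]
    apply Finset.sum_congr rfl
    intro χ hχ
    rw [hf χ (mem_irrS.1 hχ)]
  have h2 : ∀ χ ∈ S, (N.totient : ℝ) ≤ ∑ w ∈ primitiveRoots N ℂ, ‖aeval w (f χ)‖ ^ 2 := by
    intro χ hχ
    have h3 := hf χ (mem_irrS.1 (hS hχ)) 1
    rw [pow_one, pow_one] at h3
    have h4 := Pool.Agent.R927.GP.totient_le_sum hN0 (f χ) hζ (by rw [← h3]; exact hx χ hχ)
    have h5 : ∑ w ∈ primitiveRoots N ℂ, (2 * ‖aeval w (f χ)‖ - 1) ≤
        ∑ w ∈ primitiveRoots N ℂ, ‖aeval w (f χ)‖ ^ 2 := by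
      apply Finset.sum_le_sum
      intro w _
      nlinarith [sq_nonneg (‖aeval w (f χ)‖ - 1)]
    rw [Finset.sum_sub_distrib, ← Finset.mul_sum, Finset.sum_const, Complex.card_primitiveRoots,
      nsmul_eq_mul, mul_one] at h5
    linarith
  have h3 : (S.card : ℝ) * N.totient ≤
      (Nat.card (Subgroup.centralizer {x}) : ℝ) * N.totient := by
    calc (S.card : ℝ) * N.totient = ∑ χ ∈ S, (N.totient : ℝ) := by
          rw [Finset.sum_const, nsmul_eq_mul]
      _ ≤ ∑ χ ∈ S, ∑ w ∈ primitiveRoots N ℂ, ‖aeval w (f χ)‖ ^ 2 := Finset.sum_le_sum h2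
      _ ≤ ∑ χ ∈ irrS G, ∑ w ∈ primitiveRoots N ℂ, ‖aeval w (f χ)‖ ^ 2 :=
          Finset.sum_le_sum_of_subset_of_nonneg hS (fun χ _ _ =>
            Finset.sum_nonneg (fun w _ => by positivity))
      _ = ∑ w ∈ primitiveRoots N ℂ, ∑ χ ∈ irrS G, ‖aeval w (f χ)‖ ^ 2 := Finset.sum_comm
      _ = ∑ w ∈ primitiveRoots N ℂ, (Nat.card (Subgroup.centralizer {x}) : ℝ) :=
          Finset.sum_congr rfl h1
      _ = _ := by
          rw [Finset.sum_const, Complex.card_primitiveRoots, nsmul_eq_mul, mul_comm]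
  have h4 : (0 : ℝ) < N.totient := by exact_mod_cast Nat.totient_pos.2 hN0
  have h5 := le_of_mul_le_mul_right h3 h4
  exact_mod_cast h5

theorem card_conj_le [Fintype G] : Nat.card (ConjClasses G) ≤ (irrS G).card := by
  classical
  have : Fintype (ConjClasses G) := Fintype.ofFinite _
  let Φ : ((irrS G) → ℂ) →ₗ[ℂ] (ConjClasses G → ℂ) :=
    { toFun := fun a K => ∑ χ : irrS G, a χ * (χ : G → ℂ) (Quotient.out K)
      map_add' := by
        intro a b
        funext K
        simp only [Pi.add_apply, add_mul, Finset.sum_add_distrib]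
      map_smul' := by
        intro c a
        funext K
        simp only [Pi.smul_apply, smul_eq_mul, RingHom.id_apply, Finset.mul_sum, mul_assoc] }
  have hsurj : Function.Surjective Φ := by
    intro f
    have hc : ∀ g x : G, (fun g => f (ConjClasses.mk g)) (x * g * x⁻¹) =
        (fun g => f (ConjClasses.mk g)) g := by
      intro g x
      show f _ = f _
      congr 1
      rw [ConjClasses.mk_eq_mk_iff_isConj, isConj_comm, isConj_iff]
      exact ⟨x, rfl⟩
    refine ⟨fun χ => (Fintype.card G : ℂ)⁻¹ * ∑ g, f (ConjClasses.mk g) * (χ : G → ℂ) g⁻¹, ?_⟩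
    funext K
    change ∑ χ : irrS G, ((Fintype.card G : ℂ)⁻¹ * ∑ g, f (ConjClasses.mk g) * (χ : G → ℂ) g⁻¹) *
      (χ : G → ℂ) (Quotient.out K) = f K
    rw [Finset.sum_coe_sort (irrS G) (fun χ => ((Fintype.card G : ℂ)⁻¹ *
      ∑ g, f (ConjClasses.mk g) * χ g⁻¹) * χ (Quotient.out K)),
      ← class_expand (fun g => f (ConjClasses.mk g)) hc]
    show f _ = f K
    congr 1
    exact Quotient.out_eq K
  have h := LinearMap.finrank_le_finrank_of_surjective hsurj
  rw [Module.finrank_fintype_fun_eq_card, Module.finrank_fintype_fun_eq_card,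
    Fintype.card_coe] at h
  rw [Nat.card_eq_fintype_card]
  exact h

end Pool.Agent.K3h11.Zer
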