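import Pool.Agent.K3h11.Zer.Reg
import Pool.Agent.K3h11.Zer.Cnt
import Pool.Agent.K3h11.Zer.Abs
import Pool.Agent.H648R4.Fit

/-!
# The index of the Fitting subgroup and the zeros of the irreducible characters
-/

set_option autoImplicit false
open CategoryTheory

namespace Pool.Agent.K3h11.Zer
open Pool.Agent.W367.SN Pool.Agent.Helper199.RepDim Pool.Agent.R677.Zeros

/-- the largest normal nilpotent subgroup -/
def IsFit {G : Type} [Group G] (F : Subgroup G) : Prop :=
  F.Normal ∧ Group.IsNilpotent F ∧ ∀ N : Subgroup G, N.Normal → Group.IsNilpotent N → N ≤ F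

theorem exists_fit (G : Type) [Group G] [Finite G] : ∃ F : Subgroup G, IsFit F := by
  let 𝒮 : Set (Subgroup G) := {N | N.Normal ∧ Group.IsNilpotent N}
  obtain ⟨F, hF⟩ := (Set.toFinite 𝒮).exists_maximal ⟨⊥, inferInstance, inferInstance⟩
  obtain ⟨hF1, hF2⟩ : F ∈ 𝒮 := hF.prop
  refine ⟨F, hF1, hF2, fun N hN hN' => ?_⟩
  have h1 : F ⊔ N ∈ 𝒮 := ⟨inferInstance, Pool.Agent.H648R4.fitting_thm hF2 hN'⟩
  exact le_sup_right.trans (hF.le_of_ge h1 le_sup_left)

theorem nilpotent_of_comm {G : Type} [Group G] (B : Subgroup G)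
    (hB : ∀ x ∈ B, ∀ y ∈ B, x * y = y * x) : Group.IsNilpotent B := by
  refine ⟨⟨1, ?_⟩⟩
  rw [Subgroup.upperCentralSeries_one, eq_top_iff]
  intro x _
  rw [Subgroup.mem_center_iff]
  intro y
  exact Subtype.ext (hB y y.2 x x.2)

theorem exists_abelian_normal {H : Type} [Group H] (S : Subgroup H) (hS : S.Normal)
    (hsol : Group.IsSolvable S) (hne : S ≠ ⊥) :
    ∃ A : Subgroup H, A.Normal ∧ (∀ x ∈ A, ∀ y ∈ A, x * y = y * x) ∧ A ≤ S ∧ A ≠ ⊥ := by
  classical
  have hex : ∃ n, derivedSeries S n = ⊥ := hsol.solvable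
  have h0 : Nat.find hex ≠ 0 := by
    intro h
    have h1 := Nat.find_spec hex
    rw [h, derivedSeries_zero] at h1
    apply hne
    rw [eq_bot_iff]
    intro x hx
    have h2 : (⟨x, hx⟩ : S) ∈ (⊤ : Subgroup S) := trivial
    rw [h1, Subgroup.mem_bot] at h2
    exact congrArg Subtype.val h2
  obtain ⟨i, hi⟩ := Nat.exists_eq_succ_of_ne_zero h0
  have h1 : derivedSeries S i ≠ ⊥ := Nat.find_min hex (by omega)
  have h2 : derivedSeries S (i + 1) = ⊥ := by
    have := Nat.find_spec hex
    rwa [hi] at this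
  refine ⟨(derivedSeries S i).map S.subtype, inferInstance, ?_, ?_, ?_⟩
  · rintro _ ⟨x, hx, rfl⟩ _ ⟨y, hy, rfl⟩
    have h3 : x * y * x⁻¹ * y⁻¹ ∈ derivedSeries S (i + 1) := by
      rw [derivedSeries_succ]
      exact Subgroup.commutator_mem_commutator hx hy
    rw [h2, Subgroup.mem_bot] at h3
    have h4 : x * y = y * x := by
      have e : x * y = (x * y * x⁻¹ * y⁻¹) * (y * x) := by group
      rw [e, h3, one_mul]
    exact congrArg Subtype.val h4
  · rintro _ ⟨x, _, rfl⟩
    exact x.2
  · intro h3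
    apply h1
    exact (Subgroup.map_eq_bot_iff_of_injective _ S.subtype_injective).1 h3

/-- the classes on which a function vanishes -/
def zcl {G : Type} [Group G] (χ : G → ℂ) : Set (ConjClasses G) :=
  {c | ∀ g : G, ConjClasses.mk g = c → χ g = 0}

theorem few_quot {G Q : Type} [Group G] [Finite G] [Group Q] [Finite Q] (π : G →* Q)
    (hπ : Function.Surjective π) {m : ℕ} (hm : ∀ χ ∈ IrrC G, (zcl χ).ncard ≤ m) :
    ∀ χ ∈ IrrC Q, (zcl χ).ncard ≤ m := by
  intro χ hχ
  have h1 := hm _ (inflate π hπ hχ)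
  refine le_trans ?_ h1
  have h2 : zcl χ ⊆ ConjClasses.map π '' zcl (fun g => χ (π g)) := by
    intro c hc
    obtain ⟨q, rfl⟩ := ConjClasses.exists_rep c
    obtain ⟨g, rfl⟩ := hπ q
    refine ⟨ConjClasses.mk g, ?_, rfl⟩
    intro g' hg'
    apply hc
    have h3 := congrArg (ConjClasses.map π) hg'
    exact h3
  exact (Set.ncard_le_ncard h2 (Set.toFinite _)).trans (Set.ncard_image_le (Set.toFinite _))

/-- the stabilizer of a linear character of a normal subgroup -/
def stab {G : Type} [Group G] (F : Subgroup G) [F.Normal] (l : F →* ℂˣ) : Subgroup G where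
  carrier := {g | ∀ f : F, l (MulAut.conjNormal g f) = l f}
  mul_mem' := by
    intro a b ha hb f
    rw [map_mul, MulAut.mul_apply, ha, hb]
  one_mem' := by
    intro f
    rw [map_one, MulAut.one_apply]
  inv_mem' := by
    intro a ha f
    rw [← ha (MulAut.conjNormal a⁻¹ f), ← MulAut.mul_apply, ← map_mul, mul_inv_cancel, map_one,
      MulAut.one_apply]

theorem mem_stab {G : Type} [Group G] {F : Subgroup G} [F.Normal] {l : F →* ℂˣ} {g : G} :
    g ∈ stab F l ↔ ∀ f : F, l (MulAut.conjNormal g f) = l f := Iff.rfl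

/-- an irreducible character over `l` vanishes on the classes which miss the stabilizer of `l` -/
theorem exists_irr_over {G : Type} [Group G] [Finite G] (F : Subgroup G) [F.Normal]
    (l : F →* ℂˣ) : ∃ χ ∈ IrrC G, ∀ x, (∀ g : G, g * x * g⁻¹ ∉ stab F l) → χ x = 0 := by
  classical
  have := Fintype.ofFinite G
  obtain ⟨V, hV, v, hv0, hv⟩ := exists_over F l
  exact ⟨V.character, ⟨V, hV, rfl⟩, fun x hx => vanish F l V hV v hv0 hv x hx⟩

theorem miss_stab {G : Type} [Group G] [Finite G] (F : Subgroup G) [F.Normal]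
    (l : F →* ℂˣ) {m : ℕ} (hm : ∀ χ ∈ IrrC G, (zcl χ).ncard ≤ m) :
    {c : ConjClasses G | ∀ g, ConjClasses.mk g = c → g ∉ stab F l}.ncard ≤ m := by
  obtain ⟨χ, hχ, hz⟩ := exists_irr_over F l
  refine le_trans (Set.ncard_le_ncard ?_ (Set.toFinite _)) (hm χ hχ)
  intro c hc g hg
  apply hz
  intro u
  apply hc
  rw [← hg, ConjClasses.mk_eq_mk_iff_isConj, isConj_comm]
  exact isConj_iff.2 ⟨u, rfl⟩

/-- the bound for nilpotent normal subgroups modulo the Fitting subgroup -/
theorem nilpotent_bound {H Q : Type} [Group H] [Finite H] [Group Q] [Finite Q] (φ : H →* Q)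
    (hφ : Function.Surjective φ) (hF : IsFit φ.ker) {m k : ℕ}
    (hm : ∀ χ ∈ IrrC H, (zcl χ).ncard ≤ m) (P : Subgroup Q) (hPn : P.Normal)
    (hP : Group.IsNilpotent P) (hk : P.index ≤ k) : Nat.card P ≤ fP m k := by
  apply abs_bound m k {I | ∃ l : φ.ker →* ℂˣ, I = (stab φ.ker l).map φ} ?_ ?_ P hPn hP hk
  · rintro I ⟨l, rfl⟩
    refine le_trans ?_ (miss_stab φ.ker l hm)
    refine le_trans (Set.ncard_le_ncard ?_ (Set.toFinite _))
      (Set.ncard_image_le (f := ConjClasses.map φ) (Set.toFinite _))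
    intro c hc
    obtain ⟨q, rfl⟩ := ConjClasses.exists_rep c
    obtain ⟨h, rfl⟩ := hφ q
    refine ⟨ConjClasses.mk h, ?_, rfl⟩
    intro h' hh' hmem
    apply hc (φ h')
    · exact congrArg (ConjClasses.map φ) hh'
    · exact ⟨h', hmem, rfl⟩
  · intro B hB hBc
    have hcomm : ∀ x ∈ B.comap φ, ∀ y ∈ B.comap φ, x * y * x⁻¹ * y⁻¹ ∈ φ.ker := by
      intro x hx y hy
      rw [MonoidHom.mem_ker, map_mul, map_mul, map_mul, map_inv, map_inv, hBc _ hx _ hy]
      group
    obtain ⟨l, hl⟩ := exists_regular φ.ker hF.2.1 hF.2.2 (B.comap φ) inferInstance (by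
      intro x hx
      rw [MonoidHom.mem_ker] at hx
      rw [Subgroup.mem_comap, hx]
      exact B.one_mem) hcomm
    refine ⟨_, ⟨l, rfl⟩, ?_⟩
    rintro x hx ⟨h, hh, rfl⟩
    exact hl h hx hh

/-- an element with small centralizer in a nonabelian section -/
theorem small_centralizer {G H Q : Type} [Group G] [Finite G] [Group H] [Finite H] [Group Q]
    [Finite Q] (π : G →* H) (hπ : Function.Surjective π) (φ : H →* Q)
    (hφ : Function.Surjective φ) (hF : IsFit φ.ker) {m : ℕ}
    (hm : ∀ χ ∈ IrrC G, (zcl χ).ncard ≤ m) (B : Subgroup Q) (hB : B.Normal)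
    (hBc : ∀ x ∈ B, ∀ y ∈ B, x * y = y * x) (hne : B ≠ ⊥) :
    ∃ x : G, φ (π x) ∈ B ∧ φ (π x) ≠ 1 ∧
      Nat.card (Subgroup.centralizer {x}) ≤ m * Nat.card Q := by
  classical
  have hcomm : ∀ x ∈ B.comap φ, ∀ y ∈ B.comap φ, x * y * x⁻¹ * y⁻¹ ∈ φ.ker := by
    intro x hx y hy
    rw [MonoidHom.mem_ker, map_mul, map_mul, map_mul, map_inv, map_inv, hBc _ hx _ hy]
    group
  obtain ⟨l, hl⟩ := exists_regular φ.ker hF.2.1 hF.2.2 (B.comap φ) inferInstance (by
    intro x hx
    rw [MonoidHom.mem_ker] at hx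
    rw [Subgroup.mem_comap, hx]
    exact B.one_mem) hcomm
  obtain ⟨χ, hχ, hz⟩ := exists_irr_over φ.ker l
  let S : Set G := {x | φ (π x) ∈ B ∧ φ (π x) ≠ 1}
  have hS : ncl S ≤ m := by
    refine le_trans (Set.ncard_le_ncard ?_ (Set.toFinite _)) (hm _ (inflate π hπ hχ))
    rintro c ⟨x, ⟨hx1, hx2⟩, rfl⟩
    intro y hy
    rw [ConjClasses.mk_eq_mk_iff_isConj, isConj_comm] at hy
    obtain ⟨u, rfl⟩ := isConj_iff.1 hy
    change χ (π (u * x * u⁻¹)) = 0
    apply hz
    intro g hg
    have h1 : g * π (u * x * u⁻¹) * g⁻¹ ∈ B.comap φ := by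
      rw [Subgroup.mem_comap]
      have e : φ (g * π (u * x * u⁻¹) * g⁻¹) = (φ g * φ (π u)) * φ (π x) * (φ g * φ (π u))⁻¹ := by
        simp only [map_mul, map_inv]
        group
      rw [e]
      exact hB.conj_mem _ hx1 _
    have h2 := hl _ h1 hg
    rw [MonoidHom.mem_ker] at h2
    apply hx2
    have e : φ (g * π (u * x * u⁻¹) * g⁻¹) = (φ g * φ (π u)) * φ (π x) * (φ g * φ (π u))⁻¹ := by
      simp only [map_mul, map_inv]
      group
    rw [e] at h2
    have e2 : φ (π x) = (φ g * φ (π u))⁻¹ * ((φ g * φ (π u)) * φ (π x) * (φ g * φ (π u))⁻¹) *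
        (φ g * φ (π u)) := by group
    rw [e2, h2]
    group
  -- the size of `S`
  have hSc : Nat.card G ≤ S.ncard * Nat.card Q := by
    obtain ⟨b, hbB, hb1⟩ : ∃ b : Q, b ∈ B ∧ b ≠ 1 := by
      obtain ⟨b, hb⟩ := Subgroup.ne_bot_iff_exists_ne_one.1 hne
      exact ⟨(b : Q), b.2, fun h => hb (Subtype.ext h)⟩
    let ψ : G →* Q := φ.comp π
    have hψ : Function.Surjective ψ := hφ.comp hπ
    obtain ⟨g0, hg0⟩ := hψ b
    have h1 : Nat.card ψ.ker ≤ S.ncard := by
      apply Nat.card_le_card_of_injective (fun k : ψ.ker => (⟨g0 * k, by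
        change φ (π (g0 * k)) ∈ B ∧ φ (π (g0 * k)) ≠ 1
        have h2 : φ (π (g0 * k)) = b := by
          change ψ (g0 * k) = b
          rw [map_mul, hg0, (MonoidHom.mem_ker.1 k.2), mul_one]
        rw [h2]
        exact ⟨hbB, hb1⟩⟩ : S))
      intro a b hab
      have h3 := congrArg Subtype.val hab
      exact Subtype.ext (mul_left_cancel h3)
    have h2 : Nat.card G = Nat.card Q * Nat.card ψ.ker := by
      rw [Subgroup.card_eq_card_quotient_mul_card_subgroup ψ.ker]
      congr 1
      exact Nat.card_congr (QuotientGroup.quotientKerEquivOfSurjective ψ hψ).toEquiv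
    rw [h2, mul_comm]
    exact Nat.mul_le_mul_right _ h1
  by_contra hcon
  push Not at hcon
  set M := Nat.card G / (m * Nat.card Q + 1) with hM
  have h1 : ∀ x ∈ S, {g : G | IsConj x g}.ncard ≤ M := by
    intro x hx
    rw [hM, Nat.le_div_iff_mul_le (by omega), ← card_class_mul x]
    apply Nat.mul_le_mul_left
    have := hcon x hx.1 hx.2
    omega
  have h2 := card_le_classes S M h1
  have h3 : S.ncard ≤ M * m := h2.trans (Nat.mul_le_mul_left _ hS)
  have h4 : M * (m * Nat.card Q + 1) ≤ Nat.card G := Nat.div_mul_le_self _ _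
  have h5 : Nat.card G ≤ M * m * Nat.card Q := hSc.trans (Nat.mul_le_mul_right _ h3)
  have h6 : 0 < Nat.card G := Nat.card_pos
  have h7 : M * (m * Nat.card Q + 1) = M * m * Nat.card Q + M := by ring
  have h8 : M = 0 := by
    clear_value M
    generalize M * m * Nat.card Q = y at *
    generalize M * (m * Nat.card Q + 1) = z at *
    omega
  rw [h8] at h5
  simp at h5
  omega

/-- the bounds for the sections -/
def gK (m k : ℕ) : ℕ → ℕ
  | 0 => k
  | j + 1 => fP m (gK m k j) * gK m k j

theorem fP_pos (m k : ℕ) : 0 < fP m k := by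
  unfold fP
  positivity

theorem gK_mono (m k : ℕ) : Monotone (gK m k) := by
  apply monotone_nat_of_le_succ
  intro j
  exact Nat.le_mul_of_pos_left _ (fP_pos _ _)

theorem tower {G : Type} [Group G] [Finite G] {m k : ℕ}
    (hm : ∀ χ ∈ IrrC G, (zcl χ).ncard ≤ m) : ∀ (n : ℕ) (H : Type) [Group H] [Finite H]
    (π : G →* H), Function.Surjective π → Nat.card H ≤ n → ∀ S : Subgroup H, S.Normal →
    Group.IsSolvable S → S.index ≤ k → ∀ F : Subgroup H, IsFit F → ∃ (t : ℕ) (x : ℕ → G),
      (∀ i < t, π (x i) ∉ F) ∧ (∀ i j, i < j → j < t → ¬ IsConj (x i) (x j)) ∧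
      F.index ≤ gK m k t ∧
      ∀ i < t, Nat.card (Subgroup.centralizer {x i}) ≤ m * gK m k (i + 1) := by
  classical
  intro n
  induction n with
  | zero =>
    intro H _ _ π hπ hn
    have : 0 < Nat.card H := Nat.card_pos
    omega
  | succ n ih =>
    intro H _ _ π hπ hn S hS hsol hk F hF
    by_cases hSF : S ≤ F
    · refine ⟨0, fun _ => 1, by omega, by omega, ?_, by omega⟩
      have h1 := Subgroup.index_dvd_of_le hSF
      exact (Nat.le_of_dvd (Nat.pos_of_ne_zero Subgroup.index_ne_zero_of_finite) h1).trans hk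
    · have hFn : F.Normal := hF.1
      let φ : H →* H ⧸ F := QuotientGroup.mk' F
      have hφ : Function.Surjective φ := QuotientGroup.mk'_surjective F
      have hker : φ.ker = F := QuotientGroup.ker_mk' F
      have hFk : IsFit φ.ker := by rw [hker]; exact hF
      have hSb : S ≠ ⊥ := by
        rintro rfl
        exact hSF bot_le
      -- the quotient is smaller
      have hcard : Nat.card (H ⧸ F) ≤ n := by
        obtain ⟨A, hA, hAc, _, hA0⟩ := exists_abelian_normal S hS hsol hSb
        have h1 : A ≤ F := hF.2.2 A hA (nilpotent_of_comm A hAc)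
        have h2 : F ≠ ⊥ := by
          intro h
          rw [h, le_bot_iff] at h1
          exact hA0 h1
        have h3 := Subgroup.card_eq_card_quotient_mul_card_subgroup F
        have h4 : 1 < Nat.card F := by
          rw [Subgroup.one_lt_card_iff_ne_bot]
          exact h2
        have h5 : 0 < Nat.card (H ⧸ F) := Nat.card_pos
        have h6 : Nat.card (H ⧸ F) * 2 ≤ Nat.card H := by
          rw [h3]
          exact Nat.mul_le_mul_left _ h4
        omega
      have hSn : (S.map φ).Normal := hS.map φ hφ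
      have hSsol : Group.IsSolvable (S.map φ) := by
        have h1 : Function.Surjective (φ.subgroupMap S) := φ.subgroupMap_surjective S
        exact Group.isSolvable_of_surjective h1
      have hSidx : (S.map φ).index ≤ k :=
        (Nat.le_of_dvd (Nat.pos_of_ne_zero Subgroup.index_ne_zero_of_finite)
          (Subgroup.index_map_dvd S hφ)).trans hk
      obtain ⟨F', hF'⟩ := exists_fit (H ⧸ F)
      obtain ⟨t, x, hx1, hx2, hx3, hx4⟩ := ih (H ⧸ F) (φ.comp π) (hφ.comp hπ) hcard (S.map φ) hSn
        hSsol hSidx F' hF'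
      have hQ : Nat.card (H ⧸ F) ≤ gK m k (t + 1) := by
        have h1 := nilpotent_bound φ hφ hFk (few_quot π hπ hm) F' hF'.1 hF'.2.1 hx3
        rw [← F'.card_mul_index]
        exact Nat.mul_le_mul h1 hx3
      have hSb' : S.map φ ≠ ⊥ := by
        intro h
        rw [Subgroup.map_eq_bot_iff, hker] at h
        exact hSF h
      obtain ⟨B, hB, hBc, _, hB0⟩ := exists_abelian_normal (S.map φ) hSn hSsol hSb'
      obtain ⟨y, hy1, hy2, hy3⟩ := small_centralizer π hπ φ hφ hFk hm B hB hBc hB0
      have hBF : B ≤ F' := hF'.2.2 B hB (nilpotent_of_comm B hBc)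
      refine ⟨t + 1, fun i => if i < t then x i else y, ?_, ?_, hQ, ?_⟩
      · intro i hi
        by_cases h : i < t
        · simp only [if_pos h]
          intro h1
          apply hx1 i h
          change φ (π (x i)) ∈ F'
          rw [← hker, MonoidHom.mem_ker] at h1
          rw [h1]
          exact F'.one_mem
        · simp only [if_neg h]
          intro h1
          rw [← hker, MonoidHom.mem_ker] at h1
          exact hy2 h1
      · intro i j hij hj
        by_cases h : j < t
        · simp only [if_pos h, if_pos (hij.trans h)]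
          exact hx2 i j hij h
        · have hi : i < t := by omega
          simp only [if_pos hi, if_neg h]
          intro h1
          rw [isConj_comm] at h1
          obtain ⟨u, hu⟩ := isConj_iff.1 h1
          apply hx1 i hi
          change φ (π (x i)) ∈ F'
          rw [← hu, map_mul, map_mul, map_mul, map_mul, map_inv, map_inv]
          exact hF'.1.conj_mem _ (hBF hy1) _
      · intro i hi
        by_cases h : i < t
        · simp only [if_pos h]
          exact hx4 i h
        · have : i = t := by omega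
          subst this
          simp only [if_neg h]
          exact hy3.trans (Nat.mul_le_mul_left _ hQ)

/-- the final bound -/
def bd (m k : ℕ) : ℕ := gK m k (max m ((m + 1) * (m * gK m k (m + 1))))

/-- **The index of the Fitting subgroup.** -/
theorem index_bound {G : Type} [Group G] [Finite G] {m k : ℕ}
    (hm : ∀ χ ∈ IrrC G, (zcl χ).ncard ≤ m) (S : Subgroup G) (hS : S.Normal) (hsol : Group.IsSolvable S)
    (hk : S.index ≤ k) (F : Subgroup G) (hF : IsFit F) : F.index ≤ bd m k := by
  classical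
  have := Fintype.ofFinite G
  obtain ⟨t, x, -, hx2, hx3, hx4⟩ := tower hm (Nat.card G) G (MonoidHom.id G)
    Function.surjective_id le_rfl S hS hsol hk F hF
  refine hx3.trans (gK_mono m k ?_)
  by_cases ht : t ≤ m
  · exact ht.trans (le_max_left _ _)
  refine le_trans ?_ (le_max_right _ _)
  push Not at ht
  have hinj : ∀ i j, i < t → j < t → ConjClasses.mk (x i) = ConjClasses.mk (x j) → i = j := by
    intro i j hi hj h
    rw [ConjClasses.mk_eq_mk_iff_isConj] at h
    rcases lt_trichotomy i j with h1 | h1 | h1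
    · exact absurd h (hx2 i j h1 hj)
    · exact h1
    · exact absurd h.symm (hx2 j i h1 hi)
  have h1 : t ≤ Nat.card (ConjClasses G) := by
    have h2 : Nat.card (Fin t) ≤ Nat.card (ConjClasses G) := by
      apply Nat.card_le_card_of_injective (fun i : Fin t => ConjClasses.mk (x i))
      intro i j h
      exact Fin.ext (hinj i j i.2 j.2 h)
    rwa [Nat.card_fin] at h2
  refine (h1.trans card_conj_le).trans ?_
  have h2 : irrS G ⊆ (Finset.range (m + 1)).biUnion
      (fun i => (irrS G).filter (fun χ => χ (x i) ≠ 0)) := by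
    intro χ hχ
    rw [Finset.mem_biUnion]
    by_contra hcon
    push Not at hcon
    have h3 : ∀ i < m + 1, χ (x i) = 0 := by
      intro i hi
      by_contra h
      exact hcon i (Finset.mem_range.2 hi) (Finset.mem_filter.2 ⟨hχ, h⟩)
    have h4 : (Finset.range (m + 1)).image (fun i => ConjClasses.mk (x i)) ⊆
        (Set.toFinite (zcl χ)).toFinset := by
      intro c hc
      obtain ⟨i, hi, rfl⟩ := Finset.mem_image.1 hc
      rw [Set.Finite.mem_toFinset]
      intro g hg
      rw [ConjClasses.mk_eq_mk_iff_isConj, isConj_comm] at hg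
      obtain ⟨u, rfl⟩ := isConj_iff.1 hg
      rw [irr_class (mem_irrS.1 hχ)]
      exact h3 i (Finset.mem_range.1 hi)
    have h5 := Finset.card_le_card h4
    rw [Finset.card_image_of_injOn, Finset.card_range, ← Set.ncard_eq_toFinset_card] at h5
    · have h6 := hm χ (mem_irrS.1 hχ)
      omega
    · intro i hi j hj h
      rw [Finset.mem_coe, Finset.mem_range] at hi hj
      exact hinj i j (by omega) (by omega) h
  refine (Finset.card_le_card h2).trans ?_
  refine (Finset.card_biUnion_le_card_mul _ _ (m * gK m k (m + 1)) ?_).trans ?_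
  · intro i hi
    rw [Finset.mem_range] at hi
    refine (nonvanish_card (x i) _ (Finset.filter_subset _ _)
      (fun χ hχ => (Finset.mem_filter.1 hχ).2)).trans ?_
    refine (hx4 i (by omega)).trans (Nat.mul_le_mul_left _ (gK_mono m k (by omega)))
  · rw [Finset.card_range]

end Pool.Agent.K3h11.Zer
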