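import Pool.Agent.R677.Zeros.Base
import Pool.Agent.R927.GP1

/-!
# Traces of powers of an operator of finite order
-/

set_option autoImplicit false
open Polynomial

namespace Pool.Agent.K3h11.Zer

theorem trace_idem {V : Type} [AddCommGroup V] [Module ℂ V] [FiniteDimensional ℂ V]
    (E : Module.End ℂ V) (hE : E * E = E) : ∃ d : ℕ, LinearMap.trace ℂ V E = d := by
  have h : LinearMap.IsProj (LinearMap.range E) E := by
    refine ⟨fun x => ⟨x, rfl⟩, ?_⟩
    rintro x ⟨y, rfl⟩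
    rw [← Module.End.mul_apply, hE]
  exact ⟨_, h.trace⟩

/-- The traces of the powers of an operator of finite order. -/
theorem trace_powers {V : Type} [AddCommGroup V] [Module ℂ V] [FiniteDimensional ℂ V]
    (T : Module.End ℂ V) (N : ℕ) (hN : 0 < N) (hT : T ^ N = 1) (ζ : ℂ) (hζ : ζ ^ N = 1)
    (hprim : ∀ i, 0 < i → i < N → ζ ^ i ≠ 1) :
    ∃ f : ℤ[X], ∀ j : ℕ, LinearMap.trace ℂ V (T ^ j) = aeval (ζ ^ j) f := by
  classical
  have hζ0 : ζ ≠ 0 := by
    rintro rfl
    rw [zero_pow hN.ne'] at hζ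
    exact zero_ne_one hζ
  have hNC : (N : ℂ) ≠ 0 := by exact_mod_cast hN.ne'
  let E : ℕ → Module.End ℂ V := fun a =>
    (N : ℂ)⁻¹ • ∑ i ∈ Finset.range N, ((ζ⁻¹) ^ (a * i)) • T ^ i
  have hTE : ∀ a, T * E a = ζ ^ a • E a := by
    intro a
    have h1 : ∑ i ∈ Finset.range N, ((ζ⁻¹) ^ (a * (i + 1))) • T ^ (i + 1) =
        ∑ i ∈ Finset.range N, ((ζ⁻¹) ^ (a * i)) • T ^ i := by
      have h2 := Finset.sum_range_succ' (fun i => ((ζ⁻¹) ^ (a * i)) • T ^ i) N
      have h3 := Finset.sum_range_succ (fun i => ((ζ⁻¹) ^ (a * i)) • T ^ i) N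
      have h4 : ((ζ⁻¹) ^ (a * N)) • T ^ N = ((ζ⁻¹) ^ (a * 0)) • T ^ 0 := by
        rw [hT, mul_comm a N, pow_mul, inv_pow, hζ, inv_one, one_pow, mul_zero, pow_zero, pow_zero]
      rw [h3, h4] at h2
      exact (add_right_cancel h2).symm
    simp only [E]
    rw [mul_smul_comm, Finset.mul_sum, smul_comm (ζ ^ a) ((N : ℂ)⁻¹), ← h1]
    congr 1
    rw [Finset.smul_sum]
    apply Finset.sum_congr rfl
    intro i _
    rw [mul_smul_comm, ← pow_succ', smul_smul]
    congr 1
    rw [mul_add, mul_one, pow_add, mul_comm ((ζ⁻¹) ^ (a * i)), ← mul_assoc, inv_pow ζ a,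
      mul_inv_cancel₀ (pow_ne_zero _ hζ0), one_mul]
  have hTpE : ∀ a i, T ^ i * E a = (ζ ^ a) ^ i • E a := by
    intro a i
    induction i with
    | zero => rw [pow_zero, pow_zero, one_mul, one_smul]
    | succ i ih => rw [pow_succ', mul_assoc, ih, mul_smul_comm, hTE, smul_smul, pow_succ]
  have hEE : ∀ a, E a * E a = E a := by
    intro a
    conv_lhs => enter [1]; simp only [E]
    rw [smul_mul_assoc, Finset.sum_mul]
    have h1 : ∀ i ∈ Finset.range N, ((ζ⁻¹) ^ (a * i)) • T ^ i * E a = E a := by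
      intro i _
      rw [smul_mul_assoc, hTpE, smul_smul, ← pow_mul, inv_pow, inv_mul_cancel₀ (pow_ne_zero _ hζ0),
        one_smul]
    rw [Finset.sum_congr rfl h1, Finset.sum_const, Finset.card_range, ← Nat.cast_smul_eq_nsmul ℂ,
      smul_smul, inv_mul_cancel₀ hNC, one_smul]
  have hsum : ∑ a ∈ Finset.range N, E a = 1 := by
    simp only [E]
    rw [← Finset.smul_sum, Finset.sum_comm]
    have h1 : ∀ i ∈ Finset.range N, ∑ a ∈ Finset.range N, ((ζ⁻¹) ^ (a * i)) • T ^ i =
        if i = 0 then (N : ℂ) • (1 : Module.End ℂ V) else 0 := by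
      intro i hi
      rw [Finset.mem_range] at hi
      rw [← Finset.sum_smul]
      split_ifs with h
      · subst h
        simp
      · have h2 : (ζ⁻¹) ^ i ≠ 1 := by
          rw [inv_pow, ne_eq, inv_eq_one]
          exact hprim i (Nat.pos_of_ne_zero h) hi
        have h3 : ∑ a ∈ Finset.range N, (ζ⁻¹) ^ (a * i) = 0 := by
          have h4 := mul_geom_sum ((ζ⁻¹) ^ i) N
          have h5 : ((ζ⁻¹) ^ i) ^ N = 1 := by
            rw [← pow_mul, mul_comm, pow_mul, inv_pow, hζ, inv_one, one_pow]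
          rw [h5, sub_self] at h4
          have h6 := (mul_eq_zero.1 h4).resolve_left (sub_ne_zero.2 h2)
          rw [← h6]
          exact Finset.sum_congr rfl (fun a _ => by rw [← pow_mul, mul_comm])
        rw [h3, zero_smul]
    rw [Finset.sum_congr rfl h1, Finset.sum_ite_eq' , if_pos (Finset.mem_range.2 hN), smul_smul,
      inv_mul_cancel₀ hNC, one_smul]
  choose d hd using fun a => trace_idem (E a) (hEE a)
  refine ⟨∑ a ∈ Finset.range N, C (d a : ℤ) * X ^ a, fun j => ?_⟩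
  have h1 : T ^ j = ∑ a ∈ Finset.range N, (ζ ^ a) ^ j • E a := by
    rw [← mul_one (T ^ j), ← hsum, Finset.mul_sum]
    exact Finset.sum_congr rfl (fun a _ => hTpE a j)
  rw [h1, map_sum, map_sum]
  apply Finset.sum_congr rfl
  intro a _
  rw [map_smul, hd, smul_eq_mul, map_mul, map_pow, aeval_X, aeval_C]
  rw [← pow_mul, ← pow_mul, mul_comm a j, mul_comm]
  simp

end Pool.Agent.K3h11.Zer
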