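import Mathlib

/-!
# A vector with small stabilizer for a commuting family of endomorphisms of a finite abelian group
-/

set_option autoImplicit false

namespace Pool.Agent.K3h11.Zer

/-- For a commuting family of endomorphisms of a finite abelian group there is an element which is
fixed only by the unipotent members of the family. -/
theorem exists_generic : ∀ (n : ℕ) (W : Type) [AddCommGroup W] [Finite W] (ι : Type)
    (b : ι → Module.End ℤ W), (∀ i j, Commute (b i) (b j)) → Nat.card W ≤ n →
    ∃ w : W, ∀ i, b i w = w → IsNilpotent (b i - 1) := by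
  intro n
  induction n with
  | zero =>
    intro W _ _ ι b hb hn
    have : 0 < Nat.card W := Nat.card_pos
    omega
  | succ n ih =>
    intro W _ _ ι b hb hn
    by_cases hex : ∃ i, ¬ IsNilpotent (b i - 1) ∧ ¬ Function.Injective ((b i - 1 : Module.End ℤ W))
    swap
    · push Not at hex
      by_cases hsub : Subsingleton W
      · refine ⟨0, fun i _ => ⟨1, ?_⟩⟩
        ext w
        exact Subsingleton.elim _ _
      · rw [not_subsingleton_iff_nontrivial] at hsub
        obtain ⟨w, hw⟩ := exists_ne (0 : W)
        refine ⟨w, fun i hi => ?_⟩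
        by_contra hnil
        have hinj := hex i hnil
        apply hw
        apply hinj
        rw [LinearMap.sub_apply, hi, map_zero, Module.End.one_apply, sub_self]
    · obtain ⟨i, hi1, hi2⟩ := hex
      set c : Module.End ℤ W := b i - 1 with hc
      obtain ⟨j, hj, hcompl⟩ := ((Filter.eventually_ge_atTop 1).and
        (LinearMap.eventually_isCompl_ker_pow_range_pow c)).exists
      have hcomm : ∀ k, Commute (b k) (c ^ j) := by
        intro k
        apply Commute.pow_right
        rw [hc]
        exact (hb k i).sub_right (Commute.one_right _)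
      set W₁ : Submodule ℤ W := LinearMap.ker (c ^ j) with hW₁
      set W₂ : Submodule ℤ W := LinearMap.range (c ^ j) with hW₂
      have h1 : ∀ k, ∀ x ∈ W₁, b k x ∈ W₁ := by
        intro k x hx
        rw [hW₁, LinearMap.mem_ker] at hx ⊢
        rw [← Module.End.mul_apply, ← (hcomm k).eq, Module.End.mul_apply, hx, map_zero]
      have h2 : ∀ k, ∀ x ∈ W₂, b k x ∈ W₂ := by
        rintro k x ⟨y, rfl⟩
        refine ⟨b k y, ?_⟩
        rw [← Module.End.mul_apply, ← Module.End.mul_apply, (hcomm k).eq]
      have hW₁ne : W₁ ≠ ⊤ := by
        intro h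
        apply hi1
        refine ⟨j, ?_⟩
        rwa [hW₁, LinearMap.ker_eq_top] at h
      have hker : LinearMap.ker c ≠ ⊥ := by
        intro h
        exact hi2 (LinearMap.ker_eq_bot.1 h)
      have hW₁bot : W₁ ≠ ⊥ := by
        intro h
        apply hker
        rw [eq_bot_iff, ← h]
        intro x hx
        rw [LinearMap.mem_ker] at hx
        rw [hW₁, LinearMap.mem_ker]
        obtain ⟨j', rfl⟩ : ∃ j', j = j' + 1 := ⟨j - 1, by omega⟩
        rw [pow_succ, Module.End.mul_apply, hx, map_zero]
      have hW₂ne : W₂ ≠ ⊤ := by
        intro h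
        apply hW₁bot
        have := hcompl.inf_eq_bot
        rw [h, inf_top_eq] at this
        exact this
      have card_lt : ∀ V : Submodule ℤ W, V ≠ ⊤ → Nat.card V ≤ n := by
        intro V hV
        have : Nat.card V < Nat.card W := by
          have h3 : Nat.card V ≤ Nat.card W := Nat.card_le_card_of_injective _ V.subtype_injective
          rcases h3.lt_or_eq with h4 | h4
          · exact h4
          · exfalso
            apply hV
            have h5 : (V : Set W).ncard = Nat.card W := h4
            rw [← Set.ncard_univ] at h5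
            have h6 := Set.eq_of_subset_of_ncard_le (Set.subset_univ (V : Set W)) h5.ge
            rw [eq_top_iff]
            intro x _
            have : x ∈ (V : Set W) := by rw [h6]; trivial
            exact this
        omega
      obtain ⟨w₁, hw₁⟩ := ih W₁ ι (fun k => (b k).restrict (h1 k)) (by
        intro k l
        ext x
        have := congrArg (fun f => f (x : W)) (hb k l).eq
        exact this) (card_lt W₁ hW₁ne)
      obtain ⟨w₂, hw₂⟩ := ih W₂ ι (fun k => (b k).restrict (h2 k)) (by
        intro k l
        ext x
        have := congrArg (fun f => f (x : W)) (hb k l).eq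
        exact this) (card_lt W₂ hW₂ne)
      refine ⟨w₁ + w₂, fun k hk => ?_⟩
      -- the two components are fixed
      have hdis := hcompl.disjoint
      rw [Submodule.disjoint_def] at hdis
      have h5 : b k (w₁ : W) - w₁ = w₂ - b k (w₂ : W) := by
        rw [map_add] at hk
        rw [sub_eq_sub_iff_add_eq_add, hk, add_comm]
      have h6 : b k (w₁ : W) - w₁ = 0 := by
        apply hdis
        · exact W₁.sub_mem (h1 k _ w₁.2) w₁.2
        · rw [h5]
          exact W₂.sub_mem w₂.2 (h2 k _ w₂.2)
      have h7 : b k (w₁ : W) = w₁ := sub_eq_zero.1 h6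
      have h8 : b k (w₂ : W) = w₂ := by
        rw [h6] at h5
        exact (sub_eq_zero.1 h5.symm).symm
      obtain ⟨e₁, he₁⟩ := hw₁ k (Subtype.ext h7)
      obtain ⟨e₂, he₂⟩ := hw₂ k (Subtype.ext h8)
      have hpow₁ : ∀ (e : ℕ) (x : W₁), ((((b k).restrict (h1 k) - 1 : Module.End ℤ W₁) ^ e) x : W) =
          ((b k - 1 : Module.End ℤ W) ^ e) (x : W) := by
        intro e
        induction e with
        | zero => intro x; simp
        | succ e ihe =>
          intro x
          rw [pow_succ, Module.End.mul_apply, ihe, pow_succ, Module.End.mul_apply]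
          congr 1
      have hpow₂ : ∀ (e : ℕ) (x : W₂), ((((b k).restrict (h2 k) - 1 : Module.End ℤ W₂) ^ e) x : W) =
          ((b k - 1 : Module.End ℤ W) ^ e) (x : W) := by
        intro e
        induction e with
        | zero => intro x; simp
        | succ e ihe =>
          intro x
          rw [pow_succ, Module.End.mul_apply, ihe, pow_succ, Module.End.mul_apply]
          congr 1
      refine ⟨e₁ + e₂, ?_⟩
      ext x
      have hx : x ∈ W₁ ⊔ W₂ := by
        rw [hcompl.sup_eq_top]
        trivial
      obtain ⟨y, hy, z, hz, rfl⟩ := Submodule.mem_sup.1 hx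
      have hy' : ((b k - 1 : Module.End ℤ W) ^ e₁) y = 0 := by
        rw [← hpow₁ e₁ ⟨y, hy⟩, he₁]
        rfl
      have hz' : ((b k - 1 : Module.End ℤ W) ^ e₂) z = 0 := by
        rw [← hpow₂ e₂ ⟨z, hz⟩, he₂]
        rfl
      rw [map_add, LinearMap.zero_apply, pow_add, Module.End.mul_apply, Module.End.mul_apply, hz',
        map_zero, add_zero, ← Module.End.mul_apply, ← pow_add, add_comm, pow_add,
        Module.End.mul_apply, hy', map_zero]

end Pool.Agent.K3h11.Zer
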