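import Mathlib
import Pool.Agent.K3h11.Zer.Unip

/-!
# Linear characters of the Fitting subgroup with small stabilizers

Let `F` be the Fitting subgroup of the finite group `G` and let `B` be a normal subgroup of `G`
with `B / F` abelian. There is a linear character of `F` whose stabilizer in `B` is `F`.
-/

set_option autoImplicit false

namespace Pool.Agent.K3h11.Zer

variable {G : Type} [Group G]

/-- the linear characters, with values in the roots of unity of order `|F|` -/
abbrev Ch (F : Subgroup G) : Type := Additive (F →* rootsOfUnity (Nat.card F) ℂ)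

instance instFiniteCh (F : Subgroup G) [Finite G] : Finite (Ch F) := by
  have h0 : NeZero (Nat.card F) := ⟨Nat.card_pos.ne'⟩
  have h1 : Finite (rootsOfUnity (Nat.card F) ℂ) := inferInstance
  have h2 : Finite (F →* rootsOfUnity (Nat.card F) ℂ) :=
    Finite.of_injective (fun l => (l : F → rootsOfUnity (Nat.card F) ℂ)) DFunLike.coe_injective
  exact h2

/-- the conjugation action on the linear characters -/
noncomputable def act (F : Subgroup G) [F.Normal] (g : G) : Module.End ℤ (Ch F) :=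
  AddMonoidHom.toIntLinearMap
    { toFun := fun l => Additive.ofMul (l.toMul.comp (MulAut.conjNormal g⁻¹ : MulAut F).toMonoidHom)
      map_zero' := by
        apply Additive.toMul.injective
        ext x
        rfl
      map_add' := by
        intro l l'
        apply Additive.toMul.injective
        ext x
        rfl }

theorem act_apply (F : Subgroup G) [F.Normal] (g : G) (l : Ch F) (f : F) :
    (act F g l).toMul f = l.toMul (MulAut.conjNormal g⁻¹ f) := rfl

theorem ch_ext (F : Subgroup G) {l l' : Ch F} (h : ∀ f : F, l.toMul f = l'.toMul f) : l = l' :=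
  Additive.toMul.injective (MonoidHom.ext h)

theorem act_mul (F : Subgroup G) [F.Normal] (g h : G) : act F (g * h) = act F g * act F h := by
  apply LinearMap.ext
  intro l
  apply ch_ext
  intro f
  rw [Module.End.mul_apply, act_apply, act_apply, act_apply, mul_inv_rev, map_mul,
    MulAut.mul_apply]

theorem act_one (F : Subgroup G) [F.Normal] : act F 1 = 1 := by
  apply LinearMap.ext
  intro l
  apply ch_ext
  intro f
  rw [act_apply, inv_one, map_one]
  rfl

theorem act_mem (F : Subgroup G) [F.Normal] {g : G} (hg : g ∈ F) : act F g = 1 := by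
  apply LinearMap.ext
  intro l
  apply ch_ext
  intro f
  rw [act_apply]
  have h : (MulAut.conjNormal g⁻¹ : MulAut F) f = (⟨g, hg⟩ : F)⁻¹ * f * ⟨g, hg⟩ := by
    apply Subtype.ext
    rw [MulAut.conjNormal_apply]
    simp
  rw [h, map_mul, map_mul, map_inv, mul_assoc, mul_comm, mul_assoc, mul_inv_cancel, mul_one]
  rfl

/-- the elements of `B` which act unipotently on the linear characters -/
def unip (F : Subgroup G) [F.Normal] (B : Subgroup G)
    (hB : ∀ x ∈ B, ∀ y ∈ B, x * y * x⁻¹ * y⁻¹ ∈ F) : Subgroup G where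
  carrier := {b | b ∈ B ∧ IsNilpotent (act F b - 1)}
  mul_mem' := by
    rintro x y ⟨hx, hx'⟩ ⟨hy, hy'⟩
    refine ⟨B.mul_mem hx hy, ?_⟩
    have hc : Commute (act F x) (act F y) := by
      have h : x * y = (x * y * x⁻¹ * y⁻¹) * (y * x) := by group
      have h2 := act_mul F x y
      rw [h, act_mul, act_mem F (hB x hx y hy), one_mul, act_mul] at h2
      exact h2.symm
    have e : act F (x * y) - 1 = (act F x - 1) * act F y + (act F y - 1) := by
      rw [act_mul]
      noncomm_ring
    rw [e]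
    have hc1 : Commute (act F x - 1) (act F y) := hc.sub_left (Commute.one_left _)
    have h1 : IsNilpotent ((act F x - 1) * act F y) := hc1.isNilpotent_mul_right hx'
    apply Commute.isNilpotent_add _ h1 hy'
    apply Commute.mul_left
    · exact hc1.sub_right (Commute.one_right _)
    · exact (Commute.refl _).sub_right (Commute.one_right _)
  one_mem' := ⟨B.one_mem, by rw [act_one, sub_self]; exact IsNilpotent.zero⟩
  inv_mem' := by
    rintro x ⟨hx, hx'⟩
    refine ⟨B.inv_mem hx, ?_⟩
    have e : act F x⁻¹ - 1 = (act F x - 1) * (-act F x⁻¹) := by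
      have : act F x * act F x⁻¹ = 1 := by rw [← act_mul, mul_inv_cancel, act_one]
      rw [sub_mul, mul_neg, this]
      noncomm_ring
    rw [e]
    apply Commute.isNilpotent_mul_right _ hx'
    apply Commute.neg_right
    apply Commute.sub_left _ (Commute.one_left _)
    change _ * _ = _ * _
    rw [← act_mul, ← act_mul, mul_inv_cancel, inv_mul_cancel]

theorem act_commute (F : Subgroup G) [F.Normal] {x y : G} (h : x * y * x⁻¹ * y⁻¹ ∈ F) :
    Commute (act F x) (act F y) := by
  have h1 : x * y = (x * y * x⁻¹ * y⁻¹) * (y * x) := by group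
  have h2 := act_mul F x y
  rw [h1, act_mul, act_mem F h, one_mul, act_mul] at h2
  exact h2.symm

variable [Finite G]

/-- A proper subgroup of a finite nilpotent group is killed by a nontrivial linear character. -/
theorem exists_char_of_lt {F : Type} [Group F] [Finite F] (hF : Group.IsNilpotent F)
    (M : Subgroup F) (hM : M ≠ ⊤) :
    ∃ l : F →* rootsOfUnity (Nat.card F) ℂ, l ≠ 1 ∧ ∀ x ∈ M, l x = 1 := by
  obtain ⟨N, hN, hMN⟩ := (eq_top_or_exists_le_coatom M).resolve_left hM
  have hNn : N.Normal := (Group.isNilpotent_of_finite_tfae.out 0 2 rfl rfl).1 hF N hN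
  have hsimple : IsSimpleGroup (F ⧸ N) := by
    have hnt : Nontrivial (F ⧸ N) := by
      rw [QuotientGroup.nontrivial_iff]
      exact hN.1
    refine ⟨fun K hK => ?_⟩
    have h1 : N ≤ K.comap (QuotientGroup.mk' N) := by
      intro x hx
      rw [Subgroup.mem_comap, QuotientGroup.mk'_apply, (QuotientGroup.eq_one_iff x).2 hx]
      exact K.one_mem
    have h3 : K = (K.comap (QuotientGroup.mk' N)).map (QuotientGroup.mk' N) :=
      (Subgroup.map_comap_eq_self_of_surjective (QuotientGroup.mk'_surjective N) K).symm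
    rcases hN.le_iff.1 h1 with h2 | h2
    · right
      rw [h3, h2]
      exact Subgroup.map_top_of_surjective _ (QuotientGroup.mk'_surjective N)
    · left
      rw [h3, h2]
      rw [Subgroup.map_eq_bot_iff, QuotientGroup.ker_mk']
  have hnil : Group.IsNilpotent (F ⧸ N) := Group.nilpotent_quotient_of_nilpotent N
  obtain ⟨a, ha⟩ := exists_ne (1 : F ⧸ N)
  obtain ⟨φ, hφ⟩ := CommGroup.exists_apply_ne_one_of_hasEnoughRootsOfUnity (F ⧸ N) ℂ ha
  obtain ⟨a, rfl⟩ := QuotientGroup.mk'_surjective N a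
  have hroot : ∀ x : F, φ (QuotientGroup.mk' N x) ∈ rootsOfUnity (Nat.card F) ℂ := by
    intro x
    rw [mem_rootsOfUnity, ← map_pow, ← map_pow, pow_card_eq_one', map_one, map_one]
  refine ⟨(φ.comp (QuotientGroup.mk' N)).codRestrict _ hroot, ?_, ?_⟩
  · intro h
    apply hφ
    have := congrArg (fun l : F →* rootsOfUnity (Nat.card F) ℂ => ((l a : rootsOfUnity (Nat.card F) ℂ) : ℂˣ)) h
    exact this
  · intro x hx
    apply Subtype.ext
    change φ (QuotientGroup.mk' N x) = 1
    rw [QuotientGroup.mk'_apply, (QuotientGroup.eq_one_iff x).2 (hMN hx), map_one]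

/-- A commuting family of unipotent operators has a common nonzero fixed vector in a nonzero
invariant subgroup. -/
theorem exists_fixed {W : Type} [AddCommGroup W] [Finite W] {ι : Type} (b : ι → Module.End ℤ W)
    (hb : ∀ i j, Commute (b i) (b j)) (hnil : ∀ i, IsNilpotent (b i - 1)) (W₀ : Submodule ℤ W)
    (hW₀ : W₀ ≠ ⊥) (hinv : ∀ i, ∀ x ∈ W₀, b i x ∈ W₀) :
    ∃ w ∈ W₀, w ≠ 0 ∧ ∀ i, b i w = w := by
  let 𝒮 : Set (Submodule ℤ W) := {V | V ≠ ⊥ ∧ V ≤ W₀ ∧ ∀ i, ∀ x ∈ V, b i x ∈ V}
  have hfin : Finite (Submodule ℤ W) := by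
    apply Finite.of_injective (fun V : Submodule ℤ W => (V : Set W))
    exact SetLike.coe_injective
  obtain ⟨V, hV⟩ := (Set.toFinite 𝒮).exists_minimal ⟨W₀, hW₀, le_rfl, hinv⟩
  have hV1 : V ∈ 𝒮 := hV.prop
  obtain ⟨hV0, hVW, hVinv⟩ := hV1
  have hfix : ∀ i, ∀ x ∈ V, b i x = x := by
    intro i
    have hmem : V ⊓ LinearMap.ker (b i - 1) ∈ 𝒮 := by
      refine ⟨?_, inf_le_left.trans hVW, ?_⟩
      · intro hbot
        -- `b i - 1` is injective on `V`
        have hinj : ∀ x ∈ V, (b i - 1) x = 0 → x = 0 := by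
          intro x hx h0
          have : x ∈ V ⊓ LinearMap.ker (b i - 1) := ⟨hx, h0⟩
          rw [hbot] at this
          exact this
        obtain ⟨e, he⟩ := hnil i
        have hpow : ∀ e : ℕ, ∀ x ∈ V, ((b i - 1) ^ e) x = 0 → x = 0 := by
          intro e
          induction e with
          | zero => intro x _ h; simpa using h
          | succ e ih =>
            intro x hx h
            rw [pow_succ, Module.End.mul_apply] at h
            apply hinj x hx
            apply ih _ _ h
            rw [LinearMap.sub_apply]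
            exact V.sub_mem (hVinv i x hx) hx
        apply hV0
        rw [eq_bot_iff]
        intro x hx
        exact hpow e x hx (by rw [he]; rfl)
      · rintro j x ⟨hx1, hx2⟩
        refine ⟨hVinv j x hx1, ?_⟩
        have hx3 : (b i - 1) x = 0 := hx2
        have hc : Commute (b j) (b i - 1) := (hb j i).sub_right (Commute.one_right _)
        change (b i - 1) (b j x) = 0
        rw [← Module.End.mul_apply, ← hc.eq, Module.End.mul_apply, hx3, map_zero]
    have hle := hV.le_of_le hmem inf_le_left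
    intro x hx
    have h2 : (b i - 1) x = 0 := (hle hx).2
    rw [LinearMap.sub_apply, sub_eq_zero] at h2
    exact h2
  obtain ⟨w, hw, hw0⟩ := (Submodule.ne_bot_iff V).1 hV0
  exact ⟨w, hVW hw, hw0, fun i => hfix i w hw⟩

/-- the elements of `B` acting unipotently form a nilpotent group -/
theorem unip_nilpotent (F : Subgroup G) [F.Normal] (hF : Group.IsNilpotent F) (B : Subgroup G)
    (hFB : F ≤ B) (hB : ∀ x ∈ B, ∀ y ∈ B, x * y * x⁻¹ * y⁻¹ ∈ F) :
    Group.IsNilpotent (unip F B hB) := by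
  classical
  set U := unip F B hB with hU
  have hUB : U ≤ B := fun x hx => hx.1
  have hFU : F ≤ U := fun x hx => ⟨hFB hx, by rw [act_mem F hx, sub_self]; exact IsNilpotent.zero⟩
  have hconj : ∀ u : G, ∀ f ∈ F, u * f * u⁻¹ ∈ F := fun u f hf =>
    (inferInstance : F.Normal).conj_mem f hf u
  apply (Group.isNilpotent_of_finite_tfae.out 0 2 rfl rfl).2
  intro M' hM'
  -- the maximal subgroup as a subgroup of `G`
  set M : Subgroup G := M'.map U.subtype with hM
  have hMU : M ≤ U := by
    rintro x ⟨y, _, rfl⟩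
    exact y.2
  have hmem : ∀ x : U, x ∈ M' ↔ (x : G) ∈ M := by
    intro x
    constructor
    · intro hx
      exact ⟨x, hx, rfl⟩
    · rintro ⟨y, hy, hyx⟩
      have : y = x := Subtype.ext hyx
      rwa [← this]
  have hmax : ∀ K : Subgroup G, M ≤ K → K ≤ U → K = M ∨ K = U := by
    intro K h1 h2
    have h3 : M' ≤ K.subgroupOf U := by
      intro x hx
      rw [Subgroup.mem_subgroupOf]
      exact h1 ((hmem x).1 hx)
    rcases hM'.le_iff.1 h3 with h4 | h4
    · right
      apply le_antisymm h2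
      intro x hx
      have : (⟨x, hx⟩ : U) ∈ K.subgroupOf U := by rw [h4]; trivial
      exact this
    · left
      apply le_antisymm _ h1
      intro x hx
      have : (⟨x, h2 hx⟩ : U) ∈ K.subgroupOf U := hx
      rw [h4] at this
      exact (hmem _).1 this
  have hMne : M ≠ U := by
    intro h
    apply hM'.1
    rw [eq_top_iff]
    intro x _
    rw [hmem, h]
    exact x.2
  suffices key : ∀ u ∈ U, ∀ m ∈ M, u * m * u⁻¹ ∈ M by
    refine ⟨fun m hm u => ?_⟩
    rw [hmem]
    exact key u u.2 m ((hmem m).1 hm)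
  by_cases hFM : F ≤ M
  · intro u hu m hm
    have h1 := hB u (hUB hu) m (hUB (hMU hm))
    have : u * m * u⁻¹ = (u * m * u⁻¹ * m⁻¹) * m := by group
    rw [this]
    exact M.mul_mem (hFM h1) hm
  -- `U = M F`
  have hsup : ∀ u ∈ U, ∃ m ∈ M, ∃ f ∈ F, u = m * f := by
    have h1 : M ⊔ F = U := by
      rcases hmax (M ⊔ F) le_sup_left (sup_le hMU hFU) with h | h
      · exact absurd (le_sup_right.trans h.le) hFM
      · exact h
    intro u hu
    rw [← h1, ← SetLike.mem_coe, Subgroup.mul_normal] at hu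
    obtain ⟨m, hm, f, hf, rfl⟩ := hu
    exact ⟨m, hm, f, hf, rfl⟩
  -- a nontrivial character which is trivial on `F ∩ M`
  obtain ⟨l₀, hl₀, hl₀M⟩ := exists_char_of_lt hF (M.subgroupOf F) (by
    intro h
    apply hFM
    intro x hx
    have : (⟨x, hx⟩ : F) ∈ M.subgroupOf F := by rw [h]; trivial
    exact this)
  let W₀ : Submodule ℤ (Ch F) := AddSubgroup.toIntSubmodule
    { carrier := {l | ∀ x : F, (x : G) ∈ M → l.toMul x = 1}
      add_mem' := by
        intro l l' h h' x hx
        rw [toMul_add, MonoidHom.mul_apply, h x hx, h' x hx, mul_one]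
      zero_mem' := fun x _ => rfl
      neg_mem' := by
        intro l h x hx
        rw [toMul_neg, MonoidHom.inv_apply, h x hx, inv_one] }
  have hW₀mem : ∀ l : Ch F, l ∈ W₀ ↔ ∀ x : F, (x : G) ∈ M → l.toMul x = 1 := fun l => Iff.rfl
  have hW₀ : W₀ ≠ ⊥ := by
    rw [Submodule.ne_bot_iff]
    refine ⟨Additive.ofMul l₀, ?_, ?_⟩
    · rw [hW₀mem]
      intro x hx
      exact hl₀M x hx
    · intro h
      exact hl₀ h
  obtain ⟨l, hl, hl0, hlfix⟩ := exists_fixed (fun u : U => act F (u : G))
    (fun u v => act_commute F (hB u (hUB u.2) v (hUB v.2))) (fun u => u.2.2) W₀ hW₀ (by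
      intro u l hl
      obtain ⟨m, hm, f, hf, he⟩ := hsup u u.2
      rw [hW₀mem] at hl ⊢
      intro x hx
      change (act F (u : G) l).toMul x = 1
      rw [he, act_mul, act_mem F hf, mul_one, act_apply]
      apply hl
      rw [MulAut.conjNormal_apply, inv_inv]
      exact M.mul_mem (M.mul_mem (M.inv_mem hm) hx) hm)
  rw [hW₀mem] at hl
  -- invariance
  have hinv : ∀ u ∈ U, ∀ (f : G) (hf : f ∈ F),
      l.toMul ⟨u * f * u⁻¹, hconj u f hf⟩ = l.toMul ⟨f, hf⟩ := by
    intro u hu f hf
    have h1 := hlfix ⟨u⁻¹, U.inv_mem hu⟩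
    have h2 := congrArg (fun l' : Ch F => l'.toMul ⟨f, hf⟩) h1
    change (act F u⁻¹ l).toMul ⟨f, hf⟩ = l.toMul ⟨f, hf⟩ at h2
    rw [act_apply] at h2
    rw [← h2]
    congr 1
    apply Subtype.ext
    rw [MulAut.conjNormal_apply, inv_inv]
  -- the kernel is contained in `M`
  have hker : ∀ (f : G) (hf : f ∈ F), l.toMul ⟨f, hf⟩ = 1 → f ∈ M := by
    let K : Subgroup G :=
      { carrier := {x | ∃ m ∈ M, ∃ (f : G) (hf : f ∈ F), l.toMul ⟨f, hf⟩ = 1 ∧ x = m * f}
        mul_mem' := by
          rintro x y ⟨m, hm, f, hf, h1, rfl⟩ ⟨m', hm', f', hf', h2, rfl⟩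
          have h3 := hconj m'⁻¹ f hf
          rw [inv_inv] at h3
          refine ⟨m * m', M.mul_mem hm hm', (m'⁻¹ * f * m') * f', F.mul_mem h3 hf', ?_, by group⟩
          have h4 := hinv m'⁻¹ (U.inv_mem (hMU hm')) f hf
          have e1 : (⟨(m'⁻¹ * f * m') * f', F.mul_mem h3 hf'⟩ : F) =
              ⟨m'⁻¹ * f * m'⁻¹⁻¹, hconj m'⁻¹ f hf⟩ * ⟨f', hf'⟩ := by
            apply Subtype.ext
            simp
          rw [e1, map_mul, h4, h1, h2, mul_one]
        one_mem' := ⟨1, M.one_mem, 1, F.one_mem, map_one _, by simp⟩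
        inv_mem' := by
          rintro x ⟨m, hm, f, hf, h1, rfl⟩
          refine ⟨m⁻¹, M.inv_mem hm, m * f⁻¹ * m⁻¹, hconj m _ (F.inv_mem hf), ?_, by group⟩
          rw [hinv m (hMU hm) f⁻¹ (F.inv_mem hf)]
          have e1 : (⟨f⁻¹, F.inv_mem hf⟩ : F) = (⟨f, hf⟩ : F)⁻¹ := rfl
          rw [e1, map_inv, h1, inv_one] }
    have hMK : M ≤ K := fun m hm => ⟨m, hm, 1, F.one_mem, map_one _, by simp⟩
    have hKU : K ≤ U := by
      rintro x ⟨m, hm, f, hf, _, rfl⟩
      exact U.mul_mem (hMU hm) (hFU hf)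
    rcases hmax K hMK hKU with h | h
    · intro f hf h1
      rw [← h]
      exact ⟨1, M.one_mem, f, hf, h1, by simp⟩
    · exfalso
      apply hl0
      apply ch_ext
      rintro ⟨f, hf⟩
      have h2 : f ∈ K := by
        rw [h]
        exact hFU hf
      obtain ⟨m, hm, f', hf', h3, h4⟩ := h2
      have hmF : m ∈ F := by
        have : m = f * f'⁻¹ := by rw [h4]; group
        rw [this]
        exact F.mul_mem hf (F.inv_mem hf')
      have e1 : (⟨f, hf⟩ : F) = ⟨m, hmF⟩ * ⟨f', hf'⟩ := Subtype.ext h4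
      rw [e1, map_mul, h3, hl ⟨m, hmF⟩ hm, mul_one]
      rfl
  intro u hu m hm
  obtain ⟨m', hm', f', hf', rfl⟩ := hsup u hu
  have h1 : f' * m * f'⁻¹ * m⁻¹ ∈ M := by
    have h2 : m * f'⁻¹ * m⁻¹ ∈ F := hconj m _ (F.inv_mem hf')
    have h3 : f' * m * f'⁻¹ * m⁻¹ = f' * (m * f'⁻¹ * m⁻¹) := by group
    rw [h3]
    apply hker _ (F.mul_mem hf' h2)
    have e1 : (⟨f' * (m * f'⁻¹ * m⁻¹), F.mul_mem hf' h2⟩ : F) =
        ⟨f', hf'⟩ * ⟨m * f'⁻¹ * m⁻¹, hconj m _ (F.inv_mem hf')⟩ := rfl
    rw [e1, map_mul, hinv m (hMU hm) f'⁻¹ (F.inv_mem hf')]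
    have e2 : (⟨f'⁻¹, F.inv_mem hf'⟩ : F) = (⟨f', hf'⟩ : F)⁻¹ := rfl
    rw [e2, map_inv, mul_inv_cancel]
  have : m' * f' * m * (m' * f')⁻¹ = m' * (f' * m * f'⁻¹ * m⁻¹) * m * m'⁻¹ := by group
  rw [this]
  exact M.mul_mem (M.mul_mem (M.mul_mem hm' h1) hm) (M.inv_mem hm')

/-- **Regular characters.** If `F` is the Fitting subgroup and `B ≥ F` is normal with `B / F`
abelian, some linear character of `F` has stabilizer `F` in `B`. -/
theorem exists_regular (F : Subgroup G) [F.Normal] (hF : Group.IsNilpotent F)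
    (hmax : ∀ N : Subgroup G, N.Normal → Group.IsNilpotent N → N ≤ F) (B : Subgroup G)
    (hBn : B.Normal) (hFB : F ≤ B) (hB : ∀ x ∈ B, ∀ y ∈ B, x * y * x⁻¹ * y⁻¹ ∈ F) :
    ∃ l : F →* ℂˣ, ∀ b ∈ B, (∀ f : F, l (MulAut.conjNormal b f) = l f) → b ∈ F := by
  have hUn : (unip F B hB).Normal := by
    refine ⟨fun x hx g => ⟨hBn.conj_mem x hx.1 g, ?_⟩⟩
    obtain ⟨e, he⟩ := hx.2
    refine ⟨e, ?_⟩
    have h1 : act F g * act F g⁻¹ = 1 := by rw [← act_mul, mul_inv_cancel, act_one]
    have h2 : act F g⁻¹ * act F g = 1 := by rw [← act_mul, inv_mul_cancel, act_one]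
    have h3 : act F (g * x * g⁻¹) - 1 = act F g * (act F x - 1) * act F g⁻¹ := by
      rw [act_mul, act_mul, mul_sub, sub_mul, mul_one, h1]
    have h4 : ∀ e : ℕ, (act F g * (act F x - 1) * act F g⁻¹) ^ e =
        act F g * (act F x - 1) ^ e * act F g⁻¹ := by
      intro e
      induction e with
      | zero => rw [pow_zero, pow_zero, mul_one, h1]
      | succ e ih =>
        rw [pow_succ, ih, pow_succ]
        calc act F g * (act F x - 1) ^ e * act F g⁻¹ * (act F g * (act F x - 1) * act F g⁻¹)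
            = act F g * (act F x - 1) ^ e * (act F g⁻¹ * act F g) * (act F x - 1) * act F g⁻¹ := by
              noncomm_ring
          _ = _ := by rw [h2, mul_one]; noncomm_ring
    rw [h3, h4, he, mul_zero, zero_mul]
  have hUF := hmax _ hUn (unip_nilpotent F hF B hFB hB)
  obtain ⟨w, hw⟩ := exists_generic (Nat.card (Ch F)) (Ch F) B (fun b => act F (b : G))
    (fun b c => act_commute F (hB b b.2 c c.2)) le_rfl
  refine ⟨(rootsOfUnity (Nat.card F) ℂ).subtype.comp w.toMul, fun b hb hfix => ?_⟩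
  apply hUF
  refine ⟨hb, ?_⟩
  have h5 : IsNilpotent (act F b⁻¹ - 1) := by
    apply hw ⟨b⁻¹, B.inv_mem hb⟩
    apply ch_ext
    intro f
    change (act F b⁻¹ w).toMul f = w.toMul f
    rw [act_apply, inv_inv]
    apply Subtype.ext
    exact hfix f
  have h6 : b⁻¹ ∈ unip F B hB := ⟨B.inv_mem hb, h5⟩
  have h7 := (unip F B hB).inv_mem h6
  rw [inv_inv] at h7
  exact h7.2

end Pool.Agent.K3h11.Zer
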